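import Pool.Agent.H45.EG3.S3
import Pool.Agent.H85.EGH.PRM
import Pool.Agent.H29.EGH.HGA

/-!
Rows PEM, RGM, HGM of `eg3`.
-/

set_option autoImplicit false

namespace Pool.EG3

open MvPolynomial Pool.EGH

theorem t_hgm : HGMStmt := by
  intro K _ N k L J h
  induction h with
  | zero => exact (t_HGA K N).1
  | lin _ hl _ ih => exact ((t_HGA K N).2.1 _ _ _ ih hl).1
  | form _ _ hq _ ih => exact ((t_HGA K N).2.1 _ _ _ ih hq).1

theorem t_pem : PEMStmt := by
  intro K _ N k L J l hM hl hr
  induction hM with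
  | zero => exact MC.lin MC.zero hl hr
  | lin hM' hl' hr' _ => exact MC.lin (MC.lin hM' hl' hr') hl hr
  | @form k L J d q hM' hd hq hrq ih =>
    have hJ : Hg J := t_hgm K N k L J hM'
    obtain ⟨h3, h4⟩ := t_PRM t_HGA K N d 1 J q l hJ hd (by norm_num) hq hl hrq hr
    have h5 := MC.form (ih h3) hd hq h4
    have h6 : J ⊔ Ideal.span {l} ⊔ Ideal.span {q} = J ⊔ Ideal.span {q} ⊔ Ideal.span {l} :=
      sup_right_comm _ _ _
    rw [h6] at h5
    exact h5

theorem f2_snoc {α β : Type*} {R : α → β → Prop} {a : α} : ∀ (l : List α) (ds : List β),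
    List.Forall₂ R (l ++ [a]) ds → ∃ ds' d, ds = ds' ++ [d] ∧ List.Forall₂ R l ds' ∧ R a d
  | [], ds, h => by
    cases h with
    | cons h1 h2 =>
      cases h2
      exact ⟨[], _, rfl, List.Forall₂.nil, h1⟩
  | b :: l, ds, h => by
    cases h with
    | cons h1 h2 =>
      obtain ⟨ds', d, rfl, h3, h4⟩ := f2_snoc l _ h2
      exact ⟨_ :: ds', d, rfl, List.Forall₂.cons h1 h3, h4⟩

theorem t_rgm : RGMStmt := by
  intro K _ N rs
  induction rs using List.reverseRecOn with
  | nil =>
    intro ds hds _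
    cases hds
    rw [Ideal.ofList_nil]
    exact MC.zero
  | append_singleton l a ih =>
    intro ds hds hr
    rw [RingTheory.Sequence.isWeaklyRegular_append_iff] at hr
    obtain ⟨h1, h2⟩ := hr
    rw [RingTheory.Sequence.isWeaklyRegular_singleton_iff] at h2
    have h3 : Rg (Ideal.ofList l) a := by
      intro z hz
      have h4 : a • (Submodule.Quotient.mk z :
          PR K N ⧸ (Ideal.ofList l • ⊤ : Submodule (PR K N) (PR K N))) = a • 0 := by
        rw [smul_zero, ← Submodule.Quotient.mk_smul, Submodule.Quotient.mk_eq_zero,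
          smul_eq_mul, Ideal.mul_top]
        exact hz
      have h5 := h2 h4
      rw [Submodule.Quotient.mk_eq_zero, Ideal.smul_eq_mul, Ideal.mul_top] at h5
      exact h5
    obtain ⟨ds', d, rfl, h4, h5⟩ := f2_snoc l ds hds
    have h6 := MC.form (ih ds' h4 h1) h5.1 h5.2 h3
    rw [Ideal.ofList_append, Ideal.ofList_singleton, List.reverse_append]
    exact h6

end Pool.EG3
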