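import Mathlib

/-!
A stable submodule Q of `P^k` with torsion free quotient of rank n, over a principal ideal domain:
a monic factor g of the characteristic polynomial, of degree at most n, maps everything into Q.
-/

namespace Pool.EG3.CH

open Polynomial Module

theorem aeval_mapQ {P W : Type*} [CommRing P] [AddCommGroup W] [Module P W] (Q : Submodule P W)
    (D : W →ₗ[P] W) (h : Q ≤ Q.comap D) (p : P[X]) (w : W) :
    (aeval (Q.mapQ Q D h : Module.End P (W ⧸ Q)) p) (Q.mkQ w) =
      Q.mkQ ((aeval (D : Module.End P W) p) w) := by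
  induction p using Polynomial.induction_on' with
  | add p q hp hq => simp only [map_add, LinearMap.add_apply, hp, hq]
  | monomial n c =>
    rw [aeval_monomial, aeval_monomial]
    simp only [Module.End.mul_apply, Module.algebraMap_end_apply, map_smul]
    congr 1
    induction n with
    | zero => simp
    | succ n ih =>
      rw [pow_succ', pow_succ', Module.End.mul_apply, Module.End.mul_apply, ih]
      rfl

theorem exists_factor {P : Type*} [CommRing P] [IsDomain P] [IsPrincipalIdealRing P] {k : ℕ}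
    (Dm : Matrix (Fin k) (Fin k) P) (Q : Submodule P (Fin k → P))
    (hst : Q ≤ Q.comap (Matrix.toLin' Dm))
    (htf : ∀ (p : P) (w : Fin k → P), p ≠ 0 → p • w ∈ Q → w ∈ Q) :
    ∃ g : P[X], g.Monic ∧ g ∣ Dm.charpoly ∧ g.natDegree ≤ finrank P ((Fin k → P) ⧸ Q) ∧
      ∀ w, (aeval (Matrix.toLin' Dm : Module.End P (Fin k → P)) g) w ∈ Q := by
  classical
  haveI : IsTorsionFree P ((Fin k → P) ⧸ Q) := by
    refine ⟨fun r hr => ?_⟩
    have hr0 : r ≠ 0 := hr.ne_zero
    intro a b hab
    obtain ⟨a, rfl⟩ := Q.mkQ_surjective a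
    obtain ⟨b, rfl⟩ := Q.mkQ_surjective b
    have h1 : Q.mkQ (r • (a - b)) = 0 := by
      rw [map_smul, map_sub, smul_sub]
      exact sub_eq_zero.2 hab
    rw [Submodule.mkQ_apply, Submodule.Quotient.mk_eq_zero] at h1
    have h2 := htf r _ hr0 h1
    rw [Submodule.mkQ_apply, Submodule.mkQ_apply]
    exact (Submodule.Quotient.eq Q).2 h2
  haveI : Module.Free P ((Fin k → P) ⧸ Q) := Module.free_of_finite_type_torsion_free'
  set D : Module.End P (Fin k → P) := Matrix.toLin' Dm with hD
  set E : Module.End P ((Fin k → P) ⧸ Q) := Q.mapQ Q D hst with hE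
  set n := finrank P ((Fin k → P) ⧸ Q) with hn
  let e := Module.finBasis P ((Fin k → P) ⧸ Q)
  let φ := LinearMap.toMatrixAlgEquiv e
  let F := FractionRing P
  let ψ : Matrix (Fin n) (Fin n) P →ₐ[P] Matrix (Fin n) (Fin n) F :=
    (Algebra.ofId P F).mapMatrix
  have hψ : Function.Injective ψ := by
    intro a b hab
    ext i j
    have h := congrFun (congrFun hab i) j
    exact IsFractionRing.injective P F h
  have hDc : aeval D Dm.charpoly = 0 := by
    have h1 := LinearMap.aeval_self_charpoly D
    rwa [hD, Matrix.charpoly_toLin'] at h1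
  have hEc : aeval E Dm.charpoly = 0 := by
    refine LinearMap.ext fun x => ?_
    obtain ⟨w, rfl⟩ := Q.mkQ_surjective x
    rw [hE, aeval_mapQ, hDc]
    simp
  have hφc : aeval (φ E) Dm.charpoly = 0 := by
    rw [aeval_algHom_apply φ, hEc, map_zero]
  have hψc : aeval (ψ (φ E)) (Dm.charpoly.map (algebraMap P F)) = 0 := by
    rw [aeval_map_algebraMap, aeval_algHom_apply ψ, hφc, map_zero]
  have hdvd : minpoly F (ψ (φ E)) ∣ Dm.charpoly.map (algebraMap P F) := minpoly.dvd F _ hψc
  obtain ⟨g, hg⟩ := IsIntegrallyClosed.eq_map_mul_C_of_dvd F Dm.charpoly_monic hdvd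
  have hmon : (minpoly F (ψ (φ E))).Monic := minpoly.monic (Matrix.isIntegral _)
  rw [hmon.leadingCoeff, C_1, mul_one] at hg
  have hgm : g.Monic := Polynomial.monic_of_injective (IsFractionRing.injective P F)
    (by rw [hg]; exact hmon)
  refine ⟨g, hgm, ?_, ?_, ?_⟩
  · exact Polynomial.Monic.dvd_of_fraction_map_dvd_fraction_map (K := F) Dm.charpoly_monic hgm
      (by rw [hg]; exact hdvd)
  · have h1 : g.natDegree = (minpoly F (ψ (φ E))).natDegree := by
      rw [← hg, hgm.natDegree_map]
    rw [h1]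
    have h2 := Matrix.minpoly_dvd_charpoly (ψ (φ E))
    have h3 := natDegree_le_of_dvd h2 (Matrix.charpoly_monic _).ne_zero
    rwa [Matrix.charpoly_natDegree_eq_dim, Fintype.card_fin] at h3
  · intro w
    have h1 : aeval (φ E) g = 0 := by
      apply hψ
      rw [map_zero, ← aeval_algHom_apply ψ, ← aeval_map_algebraMap F, hg, minpoly.aeval]
    have h2 : aeval E g = 0 := by
      have h3 : φ (aeval E g) = 0 := by rw [← aeval_algHom_apply φ, h1]
      exact (map_eq_zero_iff φ φ.injective).1 h3
    have h4 := aeval_mapQ Q D hst g w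
    rw [← hE, h2, LinearMap.zero_apply] at h4
    exact (Submodule.Quotient.mk_eq_zero Q).1 h4.symm

end Pool.EG3.CH
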