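import Mathlib

/-!
Total degree of polynomials in two variables (s, Y), seen in `K[X][X]`
(inner variable s, outer variable Y): a monic factor of `det (Y - A - s B)` of degree n in Y
has total degree n.
-/

namespace Pool.EG3.CH

open Polynomial

section Gen

variable {K R : Type*} [Field K] [CommRing R] (φ : K →+* R) (s y : R)

/-- `s |-> s T`. -/
noncomputable def th0 : K[X] →+* R[X] := eval₂RingHom ((C : R →+* R[X]).comp φ) (C s * X)

/-- `s |-> s T`, `Y |-> Y T`. -/
noncomputable def th : K[X][X] →+* R[X] := eval₂RingHom (th0 φ s) (C y * X)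

theorem th0_monomial (l : ℕ) (c : K) :
    th0 φ s (monomial l c) = C (φ c * s ^ l) * X ^ l := by
  simp only [th0, coe_eval₂RingHom, eval₂_monomial, RingHom.comp_apply]
  rw [mul_pow, ← mul_assoc, map_mul, map_pow]

theorem th_monomial (j l : ℕ) (c : K) :
    th φ s y (monomial j (monomial l c)) = C (φ c * s ^ l * y ^ j) * X ^ (l + j) := by
  simp only [th, coe_eval₂RingHom, eval₂_monomial]
  rw [th0_monomial]
  simp only [map_mul, map_pow]
  ring

/-- The part of degree n. -/
theorem coeff_th (g : K[X][X]) (n : ℕ) :
    (th φ s y g).coeff n =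
      ∑ j ∈ Finset.range (n + 1), φ ((g.coeff j).coeff (n - j)) * s ^ (n - j) * y ^ j := by
  induction g using Polynomial.induction_on' with
  | add p q hp hq =>
    rw [map_add, coeff_add, hp, hq, ← Finset.sum_add_distrib]
    refine Finset.sum_congr rfl fun j _ => ?_
    rw [coeff_add, coeff_add, map_add]
    ring
  | monomial j0 p =>
    induction p using Polynomial.induction_on' with
    | add p q hp hq =>
      rw [map_add, map_add, coeff_add, hp, hq, ← Finset.sum_add_distrib]
      refine Finset.sum_congr rfl fun j _ => ?_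
      rw [coeff_add, coeff_add, map_add]
      ring
    | monomial l c =>
      rw [th_monomial, coeff_C_mul, coeff_X_pow]
      by_cases h : n = l + j0
      · rw [if_pos h, mul_one, Finset.sum_eq_single j0]
        · have h4 : n - j0 = l := by omega
          rw [h4, coeff_monomial, if_pos rfl, coeff_monomial, if_pos rfl]
        · intro j _ hj
          rw [coeff_monomial, if_neg (fun e => hj e.symm)]
          simp
        · intro h5
          exact absurd (Finset.mem_range.2 (by omega)) h5
      · rw [if_neg h, mul_zero, Finset.sum_eq_zero]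
        intro j hj
        have hj' := Finset.mem_range.1 hj
        by_cases h3 : j0 = j
        · subst h3
          have h4 : ¬ (l = n - j0) := by omega
          rw [coeff_monomial, if_pos rfl, coeff_monomial, if_neg h4]
          simp
        · rw [coeff_monomial, if_neg h3]
          simp

/-- The characteristic polynomial of `A + s B` has total degree at most the size. -/
theorem th_charpoly {k : ℕ} (A B : Matrix (Fin k) (Fin k) K) :
    (th φ s y ((A.map C + (X : K[X]) • B.map C).charpoly)).natDegree ≤ k := by
  have h0 := RingHom.map_det (th φ s y) ((A.map C + (X : K[X]) • B.map C).charmatrix)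
  have h1 : th φ s y ((A.map C + (X : K[X]) • B.map C).charpoly) =
      (((X : R[X]) • (Matrix.scalar (Fin k) y - B.map (fun c => s * φ c)).map C +
        (-(A.map φ)).map C)).det := by
    rw [Matrix.charpoly, h0]
    apply congrArg
    ext1 a b
    by_cases hab : a = b
    · subst hab
      simp [Matrix.charmatrix, th, th0]
      ring
    · simp [Matrix.charmatrix, th, th0, hab]
      ring
  rw [h1]
  have h2 := natDegree_det_X_add_C_le (Matrix.scalar (Fin k) y - B.map (fun c => s * φ c))
    (-(A.map φ))
  simpa using h2

end Gen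

variable {K : Type*} [Field K]

theorem coeff_coeff (g : K[X][X]) (n j : ℕ) (h : j ≤ n) :
    ((th ((C : K[X] →+* K[X][X]).comp C) (C X) X g).coeff n).coeff j =
      monomial (n - j) ((g.coeff j).coeff (n - j)) := by
  rw [coeff_th, finsetSum_coeff, Finset.sum_eq_single j]
  · rw [RingHom.comp_apply, ← map_pow, ← map_mul, coeff_C_mul, coeff_X_pow, if_pos rfl, mul_one,
      C_mul_X_pow_eq_monomial]
  · intro l _ hl
    rw [RingHom.comp_apply, ← map_pow, ← map_mul, coeff_C_mul, coeff_X_pow,
      if_neg (fun e => hl e.symm), mul_zero]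
  · intro h5
    exact absurd (Finset.mem_range.2 (by omega)) h5

theorem natDegree_le_th {g : K[X][X]} (hg : g.Monic) :
    g.natDegree ≤ (th ((C : K[X] →+* K[X][X]).comp C) (C X) X g).natDegree := by
  apply le_natDegree_of_ne_zero
  intro h
  have h1 := coeff_coeff g g.natDegree g.natDegree le_rfl
  rw [h] at h1
  have h2 : g.coeff g.natDegree = 1 := hg
  rw [h2] at h1
  simp at h1

theorem th_ne_zero {g : K[X][X]} (hg : g.Monic) :
    th ((C : K[X] →+* K[X][X]).comp C) (C X) X g ≠ 0 := by
  intro h
  have h1 := coeff_coeff g g.natDegree g.natDegree le_rfl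
  rw [h] at h1
  have h2 : g.coeff g.natDegree = 1 := hg
  rw [h2] at h1
  simp at h1

theorem tot_of_dvd {g f : K[X][X]} (hg : g.Monic) (hf : f.Monic) (hd : g ∣ f)
    (hT : (th ((C : K[X] →+* K[X][X]).comp C) (C X) X f).natDegree ≤ f.natDegree) :
    ∀ j l, g.natDegree < j + l → (g.coeff j).coeff l = 0 := by
  obtain ⟨h, rfl⟩ := hd
  have hh : h.Monic := hg.of_mul_monic_left hf
  rw [map_mul, natDegree_mul (th_ne_zero hg) (th_ne_zero hh), hg.natDegree_mul hh] at hT
  have h1 := natDegree_le_th hh
  intro j l hjl
  have h2 : (th ((C : K[X] →+* K[X][X]).comp C) (C X) X g).coeff (j + l) = 0 :=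
    coeff_eq_zero_of_natDegree_lt (by omega)
  have h3 := coeff_coeff g (j + l) j (by omega)
  rw [h2, coeff_zero, Nat.add_sub_cancel_left] at h3
  exact (monomial_eq_zero_iff _ _).1 h3.symm

end Pool.EG3.CH
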