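import Mathlib
import Pool.Agent.H85.EG3.Tot
import Pool.Agent.H85.EG3.Fac

/-!
The matrix core of Lemma CH.
-/

namespace Pool.EG3.CH

open Polynomial Module

variable {K : Type*} [Field K] {k m : ℕ}

/-- the operator `z - s x` over `K[s]` -/
noncomputable def zt (Xm Zm : Matrix (Fin m) (Fin k) K) : (Fin k → K[X]) →ₗ[K[X]] (Fin m → K[X]) :=
  Matrix.toLin' (Zm.map C - (X : K[X]) • Xm.map C)

/-- the operator `x` over `K[s]` -/
noncomputable def xt (Xm : Matrix (Fin m) (Fin k) K) : (Fin k → K[X]) →ₗ[K[X]] (Fin m → K[X]) :=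
  Matrix.toLin' (Xm.map C)

/-- `Q = {v : x v in (z - s x) V[s]}`. -/
noncomputable def Qt (Xm Zm : Matrix (Fin m) (Fin k) K) : Submodule K[X] (Fin k → K[X]) :=
  (LinearMap.range (zt Xm Zm)).comap (xt Xm)

theorem mem_Qt {Xm Zm : Matrix (Fin m) (Fin k) K} {w : Fin k → K[X]} :
    w ∈ Qt Xm Zm ↔ ∃ u, zt Xm Zm u = xt Xm w := Iff.rfl

theorem eval_zt (Xm Zm : Matrix (Fin m) (Fin k) K) (u : Fin k → K[X]) (s : K) :
    (fun a => (zt Xm Zm u a).eval s) = (Zm - s • Xm).mulVec (fun b => (u b).eval s) := by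
  funext a
  simp only [zt, Matrix.toLin'_apply, Matrix.mulVec, dotProduct, eval_finsetSum, eval_mul]
  refine Finset.sum_congr rfl fun b _ => ?_
  simp only [Matrix.sub_apply, Matrix.map_apply, Matrix.smul_apply, smul_eq_mul, eval_sub,
    eval_mul, eval_C, eval_X]

theorem zt_injective [Infinite K] {Xm Zm : Matrix (Fin m) (Fin k) K}
    (hinj : ∀ (s : K) (v : Fin k → K), (Zm - s • Xm).mulVec v = 0 → v = 0) :
    Function.Injective (zt Xm Zm) := by
  rw [← LinearMap.ker_eq_bot, LinearMap.ker_eq_bot']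
  intro u hu
  funext b
  apply Polynomial.funext
  intro s
  have h1 := eval_zt Xm Zm u s
  rw [hu] at h1
  have h2 := hinj s _ (by rw [← h1]; funext a; simp)
  have h3 := congrFun h2 b
  simpa using h3

theorem tf_one {Xm Zm : Matrix (Fin m) (Fin k) K}
    (hinj : ∀ (s : K) (v : Fin k → K), (Zm - s • Xm).mulVec v = 0 → v = 0) (s : K)
    (w : Fin k → K[X]) (hw : (X - C s) • w ∈ Qt Xm Zm) : w ∈ Qt Xm Zm := by
  obtain ⟨u, hu⟩ := mem_Qt.1 hw
  have h1 := eval_zt Xm Zm u s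
  have h2 : (fun b => (u b).eval s) = 0 := by
    apply hinj s
    rw [← h1, hu, map_smul]
    funext a
    simp
  have h3 : ∀ b, ∃ v : K[X], u b = (X - C s) * v := by
    intro b
    have h4 : (u b).IsRoot s := congrFun h2 b
    exact dvd_iff_isRoot.2 h4
  choose v hv using h3
  refine mem_Qt.2 ⟨v, ?_⟩
  have h5 : u = (X - C s) • v := by
    funext b
    rw [hv b]
    rfl
  rw [h5, map_smul, map_smul] at hu
  exact smul_right_injective _ (X_sub_C_ne_zero s) hu

theorem tf_all [IsAlgClosed K] {Xm Zm : Matrix (Fin m) (Fin k) K}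
    (hinj : ∀ (s : K) (v : Fin k → K), (Zm - s • Xm).mulVec v = 0 → v = 0) :
    ∀ (n : ℕ) (p : K[X]) (w : Fin k → K[X]), p.natDegree = n → p ≠ 0 → p • w ∈ Qt Xm Zm →
      w ∈ Qt Xm Zm := by
  intro n
  induction n with
  | zero =>
    intro p w hn hp hw
    rw [eq_C_of_natDegree_eq_zero hn] at hw hp
    have h1 : p.coeff 0 ≠ 0 := fun h => hp (by rw [h, C_0])
    have h2 : w = C (p.coeff 0)⁻¹ • (C (p.coeff 0) • w) := by
      rw [smul_smul, ← C_mul, inv_mul_cancel₀ h1, C_1, one_smul]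
    rw [h2]
    exact (Qt Xm Zm).smul_mem _ hw
  | succ n ih =>
    intro p w hn hp hw
    obtain ⟨s, hs⟩ := IsAlgClosed.exists_root p (by
      intro h
      rw [degree_eq_natDegree hp, hn] at h
      exact absurd h (by exact_mod_cast Nat.succ_ne_zero n))
    obtain ⟨q, hq⟩ := dvd_iff_isRoot.2 hs
    have hq0 : q ≠ 0 := fun h => hp (by rw [hq, h, mul_zero])
    rw [hq, mul_smul] at hw
    have h1 := tf_one hinj s _ hw
    refine ih q w ?_ hq0 h1
    rw [hq, natDegree_mul (X_sub_C_ne_zero s) hq0, natDegree_X_sub_C] at hn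
    omega

theorem finrank_Qt [IsAlgClosed K] {i : ℕ} {Xm Zm : Matrix (Fin m) (Fin k) K}
    (hinj : ∀ (s : K) (v : Fin k → K), (Zm - s • Xm).mulVec v = 0 → v = 0) (hm : m = k + i) :
    finrank K[X] ((Fin k → K[X]) ⧸ Qt Xm Zm) ≤ i := by
  have : Infinite K := IsAlgClosed.instInfinite
  have h1 : finrank K[X] (LinearMap.range (zt Xm Zm)) = k := by
    rw [LinearMap.finrank_range_of_inj (zt_injective hinj)]
    simp
  have h2 := Submodule.finrank_quotient_add_finrank (LinearMap.range (zt Xm Zm))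
  have h3 : finrank K[X] (Fin m → K[X]) = m := by simp
  rw [h1, h3] at h2
  have hle : Qt Xm Zm ≤ (LinearMap.range (zt Xm Zm)).comap (xt Xm) := le_rfl
  have h4 : Function.Injective ((Qt Xm Zm).mapQ (LinearMap.range (zt Xm Zm)) (xt Xm) hle) := by
    rw [← LinearMap.ker_eq_bot, LinearMap.ker_eq_bot']
    intro x hx
    obtain ⟨w, rfl⟩ := (Qt Xm Zm).mkQ_surjective x
    rw [Submodule.mkQ_apply, Submodule.mapQ_apply, Submodule.Quotient.mk_eq_zero] at hx
    exact (Submodule.Quotient.mk_eq_zero _).2 hx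
  have h5 := LinearMap.finrank_le_finrank_of_injective h4
  omega

/-- The matrix core: a monic bivariate polynomial g of total degree = degree in Y at most i with
`g (s, A + s B) V[s] <= Q`. -/
theorem core [IsAlgClosed K] {i : ℕ} {Xm Zm : Matrix (Fin m) (Fin k) K}
    {A B : Matrix (Fin k) (Fin k) K}
    (hinj : ∀ (s : K) (v : Fin k → K), (Zm - s • Xm).mulVec v = 0 → v = 0) (hm : m = k + i)
    (hst : ∀ w ∈ Qt Xm Zm, Matrix.toLin' (A.map C + (X : K[X]) • B.map C) w ∈ Qt Xm Zm) :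
    ∃ g : K[X][X], g.Monic ∧ g.natDegree ≤ i ∧
      (∀ j l, g.natDegree < j + l → (g.coeff j).coeff l = 0) ∧
      ∀ w, (aeval (Matrix.toLin' (A.map C + (X : K[X]) • B.map C) :
        Module.End K[X] (Fin k → K[X])) g) w ∈ Qt Xm Zm := by
  obtain ⟨g, hg, hd, hn, hQ⟩ := exists_factor (A.map C + (X : K[X]) • B.map C) (Qt Xm Zm) hst
    (fun p w hp hw => tf_all hinj _ p w rfl hp hw)
  refine ⟨g, hg, hn.trans (finrank_Qt hinj hm), ?_, hQ⟩
  refine tot_of_dvd hg (Matrix.charpoly_monic _) hd ?_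
  rw [Matrix.charpoly_natDegree_eq_dim, Fintype.card_fin]
  exact th_charpoly _ _ _ A B

end Pool.EG3.CH
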