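import Mathlib
import Pool.Agent.H85.EG3.Core

/-!
Coefficient sequences of vectors of polynomials.
-/

namespace Pool.EG3.CH

open Polynomial Module

section Co

variable {K : Type*} [Field K] {V : Type*} [AddCommGroup V] [Module K V]
  {V' : Type*} [AddCommGroup V'] [Module K V'] {n n' : ℕ}

/-- the coefficient of `s^j` -/
noncomputable def co (b : Basis (Fin n) K V) (j : ℕ) (w : Fin n → K[X]) : V :=
  b.equivFun.symm (fun a => (w a).coeff j)

theorem co_add (b : Basis (Fin n) K V) (j : ℕ) (w w' : Fin n → K[X]) :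
    co b j (w + w') = co b j w + co b j w' := by
  rw [co, co, co, ← map_add]
  congr 1

theorem co_sub (b : Basis (Fin n) K V) (j : ℕ) (w w' : Fin n → K[X]) :
    co b j (w - w') = co b j w - co b j w' := by
  rw [co, co, co, ← map_sub]
  congr 1
  funext a
  simp

theorem co_zero (b : Basis (Fin n) K V) (j : ℕ) : co b j (0 : Fin n → K[X]) = 0 := by
  have h := co_sub b j (0 : Fin n → K[X]) 0
  rwa [sub_zero, sub_self] at h

theorem co_smulC (b : Basis (Fin n) K V) (j : ℕ) (c : K) (w : Fin n → K[X]) :
    co b j ((C c : K[X]) • w) = c • co b j w := by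
  rw [co, co, ← map_smul]
  congr 1
  funext a
  simp

theorem co_X_zero (b : Basis (Fin n) K V) (w : Fin n → K[X]) :
    co b 0 ((X : K[X]) • w) = 0 := by
  rw [co, ← map_zero b.equivFun.symm]
  congr 1
  funext a
  simp

theorem co_X_succ (b : Basis (Fin n) K V) (j : ℕ) (w : Fin n → K[X]) :
    co b (j + 1) ((X : K[X]) • w) = co b j w := by
  rw [co, co]
  congr 1
  funext a
  simp

theorem co_ext (b : Basis (Fin n) K V) (w w' : Fin n → K[X])
    (h : ∀ j, co b j w = co b j w') : w = w' := by
  funext a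
  ext j
  exact congrFun (b.equivFun.symm.injective (h j)) a

theorem co_xt (b : Basis (Fin n) K V) (b' : Basis (Fin n') K V') (T : V →ₗ[K] V') (j : ℕ)
    (w : Fin n → K[X]) :
    co b' j (xt (LinearMap.toMatrix b b' T) w) = T (co b j w) := by
  have h1 : T (co b j w) = b'.equivFun.symm (b'.equivFun (T (co b j w))) := by simp
  rw [h1, co]
  congr 1
  have h2 := LinearMap.toMatrix_mulVec_repr b b' T (co b j w)
  have h3 : (⇑(b.repr (co b j w)) : Fin n → K) = fun a => (w a).coeff j := by
    have h4 : b.equivFun (co b j w) = fun a => (w a).coeff j := by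
      rw [co]
      exact b.equivFun.apply_symm_apply _
    exact h4
  rw [h3] at h2
  have h5 : b'.equivFun (T (co b j w)) = ⇑(b'.repr (T (co b j w))) := rfl
  rw [h5, ← h2]
  funext r
  simp [xt, Matrix.toLin'_apply, Matrix.mulVec, dotProduct, finsetSum_coeff]

theorem co_fin (b : Basis (Fin n) K V) (w : Fin n → K[X]) :
    ∃ N, ∀ j, N ≤ j → co b j w = 0 := by
  refine ⟨(Finset.univ.sup fun a => (w a).natDegree) + 1, fun j hj => ?_⟩
  rw [co, ← map_zero b.equivFun.symm]
  congr 1
  funext a
  have h1 : (w a).natDegree ≤ Finset.univ.sup fun a => (w a).natDegree :=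
    Finset.le_sup (f := fun a => (w a).natDegree) (Finset.mem_univ a)
  exact coeff_eq_zero_of_natDegree_lt (by omega)

theorem co_mk (b : Basis (Fin n) K V) (f : ℕ → V) (N : ℕ) (hf : ∀ j, N ≤ j → f j = 0) :
    ∃ w : Fin n → K[X], ∀ j, co b j w = f j := by
  refine ⟨fun a => ∑ l ∈ Finset.range N, monomial l (b.equivFun (f l) a), fun j => ?_⟩
  have h1 : f j = b.equivFun.symm (b.equivFun (f j)) := by simp
  rw [h1, co]
  congr 1
  funext a
  rw [finsetSum_coeff]
  simp only [coeff_monomial]
  rw [Finset.sum_ite_eq']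
  split_ifs with h2
  · rfl
  · rw [hf j (by simpa using h2)]
    simp

end Co

end Pool.EG3.CH
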