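import Mathlib
import Pool.Agent.H85.EG3.Co

/-!
LEMMA CH.
-/

namespace Pool.EG3.CH

open Polynomial Module

variable {K : Type*} [Field K] {R : Type*} [CommRing R] [Algebra K R]
  {M : Type*} [AddCommGroup M] [Module K M] [Module R M] [IsScalarTower K R M]

/-- multiplication by r as a K-linear map -/
def ml (M : Type*) [AddCommGroup M] [Module K M] [Module R M] [IsScalarTower K R M] (r : R) :
    M →ₗ[K] M where
  toFun v := r • v
  map_add' a b := smul_add r a b
  map_smul' c a := by
    rw [RingHom.id_apply, ← algebraMap_smul R c a, ← algebraMap_smul R c (r • a), smul_smul,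
      smul_smul, mul_comm]

theorem ml_apply (r : R) (v : M) : ml (K := K) M r v = r • v := rfl

theorem smul_sc (r : R) (c : K) (v : M) : r • (c • v) = c • (r • v) := (ml M r).map_smul c v

/-- The space `x V + z V`. -/
def UU (x z : R) (V : Submodule K M) : Submodule K M := V.map (ml M x) ⊔ V.map (ml M z)

theorem x_mem (x z : R) (V : Submodule K M) {v : M} (hv : v ∈ V) : x • v ∈ UU x z V :=
  (le_sup_left : V.map (ml M x) ≤ UU x z V) ⟨v, hv, rfl⟩

theorem z_mem (x z : R) (V : Submodule K M) {v : M} (hv : v ∈ V) : z • v ∈ UU x z V :=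
  (le_sup_right : V.map (ml M z) ≤ UU x z V) ⟨v, hv, rfl⟩

/-- x as a map from V to x V + z V -/
def xV (x z : R) (V : Submodule K M) : V →ₗ[K] UU x z V :=
  ((ml M x).domRestrict V).codRestrict _ (fun v => x_mem x z V v.2)

/-- z as a map from V to x V + z V -/
def zV (x z : R) (V : Submodule K M) : V →ₗ[K] UU x z V :=
  ((ml M z).domRestrict V).codRestrict _ (fun v => z_mem x z V v.2)

theorem xV_coe (x z : R) (V : Submodule K M) (v : V) : (xV x z V v : M) = x • (v : M) := rfl

theorem zV_coe (x z : R) (V : Submodule K M) (v : V) : (zV x z V v : M) = z • (v : M) := rfl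

/-- The operators A, B with y = x A + z B. -/
theorem exists_AB (x y z : R) (V : Submodule K M) (h1 : ∀ v ∈ V, y • v ∈ UU x z V) :
    ∃ A B : V →ₗ[K] V, ∀ v : V, y • (v : M) = x • (A v : M) + z • (B v : M) := by
  let Ψ : (V × V) →ₗ[K] UU x z V := (xV x z V).coprod (zV x z V)
  have hΨ : Function.Surjective Ψ := by
    rintro ⟨u, hu⟩
    obtain ⟨a, ha, b, hb, hab⟩ := Submodule.mem_sup.1 hu
    obtain ⟨a', ha', rfl⟩ := ha
    obtain ⟨b', hb', rfl⟩ := hb
    refine ⟨(⟨a', ha'⟩, ⟨b', hb'⟩), Subtype.ext ?_⟩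
    rw [LinearMap.coprod_apply]
    exact hab
  obtain ⟨σ, hσ⟩ := Ψ.exists_rightInverse_of_surjective (LinearMap.range_eq_top.2 hΨ)
  let yV : V →ₗ[K] UU x z V :=
    ((ml M y).domRestrict V).codRestrict _ (fun v => h1 v v.2)
  refine ⟨(LinearMap.fst K V V).comp (σ.comp yV), (LinearMap.snd K V V).comp (σ.comp yV),
    fun v => ?_⟩
  have h2 : Ψ (σ (yV v)) = yV v := LinearMap.congr_fun hσ (yV v)
  have h3 := congrArg (Subtype.val) h2
  rw [LinearMap.coprod_apply] at h3
  exact h3.symm

section Main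

variable {x y z : R} {V : Submodule K M} {k m : ℕ} (b : Basis (Fin k) K V)
  (c : Basis (Fin m) K (UU x z V))

/-- matrix of x -/
noncomputable def Xm : Matrix (Fin m) (Fin k) K := LinearMap.toMatrix b c (xV x z V)

/-- matrix of z -/
noncomputable def Zm : Matrix (Fin m) (Fin k) K := LinearMap.toMatrix b c (zV x z V)

/-- the operator A + s B -/
noncomputable def DD (A B : V →ₗ[K] V) : Module.End K[X] (Fin k → K[X]) :=
  Matrix.toLin' ((LinearMap.toMatrix b b A).map C + (X : K[X]) • (LinearMap.toMatrix b b B).map C)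

theorem mem_Q {w : Fin k → K[X]} :
    w ∈ Qt (Xm b c) (Zm b c) ↔ ∃ u : Fin k → K[X], ∀ j,
      x • ((co b j w : V) : M) = z • ((co b j u : V) : M) - x • ((co b j ((X : K[X]) • u) : V) : M) := by
  have h0 : ∀ u : Fin k → K[X], zt (Xm b c) (Zm b c) u =
      xt (Zm b c) u - xt (Xm b c) ((X : K[X]) • u) := by
    intro u
    rw [zt, xt, xt, map_sub, map_smul, LinearMap.sub_apply, LinearMap.smul_apply, map_smul]
  rw [mem_Qt]
  refine exists_congr fun u => ?_
  rw [h0]
  constructor
  · intro h j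
    have h1 := congrArg (co c j) h
    rw [co_sub, Xm, Zm, co_xt, co_xt, co_xt] at h1
    have h2 := congrArg Subtype.val h1
    exact h2.symm
  · intro h
    refine co_ext c _ _ fun j => ?_
    rw [co_sub, Xm, Zm, co_xt, co_xt, co_xt]
    exact Subtype.ext (h j).symm

theorem co_DD (A B : V →ₗ[K] V) (j : ℕ) (w : Fin k → K[X]) :
    co b j (DD b A B w) = A (co b j w) + B (co b j ((X : K[X]) • w)) := by
  have h0 : DD b A B w = xt (LinearMap.toMatrix b b A) w +
      xt (LinearMap.toMatrix b b B) ((X : K[X]) • w) := by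
    rw [DD, xt, xt, map_add, map_smul, LinearMap.add_apply, LinearMap.smul_apply, map_smul]
  rw [h0, co_add, co_xt, co_xt]

theorem stab {A B : V →ₗ[K] V}
    (hAB : ∀ v : V, y • (v : M) = x • (A v : M) + z • (B v : M))
    (hx : ∀ v ∈ V, x • v = 0 → v = 0)
    (hk : ∀ p ∈ UU x z V, ∀ q ∈ UU x z V, x • p = z • q → ∃ u ∈ V, p = z • u ∧ q = x • u) :
    ∀ w ∈ Qt (Xm b c) (Zm b c), DD b A B w ∈ Qt (Xm b c) (Zm b c) := by
  intro w hw
  obtain ⟨u, hu⟩ := (mem_Q b c).1 hw
  have hy : ∀ v : V, y • (v : M) ∈ UU x z V := fun v => by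
    rw [hAB]
    exact (UU x z V).add_mem (x_mem x z V (A v).2) (z_mem x z V (B v).2)
  -- the elements r_j
  have h1 : ∀ j, ∃ r : V,
      y • ((co b j w : V) : M) - z • (A (co b j u) : M) + x • (A (co b j ((X : K[X]) • u)) : M) =
        z • (r : M) ∧
      z • (B (co b j u) : M) - x • (B (co b j ((X : K[X]) • u)) : M) = x • (r : M) := by
    intro j
    obtain ⟨r, hr, h2, h3⟩ := hk
      (y • ((co b j w : V) : M) - z • (A (co b j u) : M) + x • (A (co b j ((X : K[X]) • u)) : M))
      ((UU x z V).add_mem ((UU x z V).sub_mem (hy _) (z_mem x z V (A _).2)) (x_mem x z V (A _).2))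
      (z • (B (co b j u) : M) - x • (B (co b j ((X : K[X]) • u)) : M))
      ((UU x z V).sub_mem (z_mem x z V (B _).2) (x_mem x z V (B _).2))
      (by
        have h4 := congrArg (fun v => y • v) (hu j)
        simp only [smul_sub] at h4
        rw [smul_comm y x, smul_comm y z, smul_comm y x, hAB (co b j u),
          hAB (co b j ((X : K[X]) • u))] at h4
        rw [smul_add, smul_sub, h4]
        simp only [smul_add, smul_sub]
        rw [smul_comm z x]
        rw [smul_comm z x]
        abel)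
    exact ⟨⟨r, hr⟩, h2, h3⟩
  choose r hr1 hr2 using h1
  obtain ⟨N, hN⟩ := co_fin b u
  have hr0 : ∀ j, N + 1 ≤ j → r j = 0 := by
    intro j hj
    obtain ⟨l, rfl⟩ : ∃ l, j = l + 1 := ⟨j - 1, by omega⟩
    have h2 := hr2 (l + 1)
    rw [co_X_succ, hN (l + 1) (by omega), hN l (by omega), map_zero] at h2
    have h3 := hx _ (r (l + 1)).2 (by rw [← h2]; simp)
    exact Subtype.ext h3
  obtain ⟨ρ, hρ⟩ := co_mk b r (N + 1) hr0
  have hρ2 : ∀ j, x • ((co b j ((X : K[X]) • ρ) : V) : M) =
      z • (B (co b j ((X : K[X]) • u)) : M) -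
        x • (B (co b j ((X : K[X]) • ((X : K[X]) • u))) : M) := by
    intro j
    cases j with
    | zero => rw [co_X_zero, co_X_zero, co_X_zero, map_zero]; simp
    | succ j => rw [co_X_succ, co_X_succ, co_X_succ, hρ, hr2]
  refine (mem_Q b c).2 ⟨ρ - xt (LinearMap.toMatrix b b B) w + DD b A B u, fun j => ?_⟩
  have h5 : (X : K[X]) • (ρ - xt (LinearMap.toMatrix b b B) w + DD b A B u) =
      (X : K[X]) • ρ - xt (LinearMap.toMatrix b b B) ((X : K[X]) • w) +
        DD b A B ((X : K[X]) • u) := by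
    rw [smul_add, smul_sub, map_smul, map_smul]
  rw [h5, co_add, co_add, co_sub, co_sub, co_xt, co_xt, co_DD, co_DD, co_DD, hρ]
  have h6 := hr1 j
  have h7 := hAB (co b j w)
  have h8 := hρ2 j
  push_cast
  simp only [smul_add, smul_sub]
  rw [← h6, h7, h8]
  abel

end Main

end Pool.EG3.CH
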