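import Mathlib
import Pool.Agent.H85.EG3.Ch

/-!
LEMMA CH: homogenisation and the end.
-/

namespace Pool.EG3.CH

open Polynomial Module

set_option linter.unusedSectionVars false

variable {K : Type*} [Field K] {R : Type*} [CommRing R] [Algebra K R]
  {M : Type*} [AddCommGroup M] [Module K M] [Module R M] [IsScalarTower K R M]

variable {y : R} (x z : R) {V : Submodule K M} {k m : ℕ} (b : Basis (Fin k) K V)

/-- the homogenised value -/
noncomputable def HH (n : ℕ) (w : Fin k → K[X]) : M :=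
  ∑ j ∈ Finset.range (n + 1), (x ^ (n - j) * z ^ j) • ((co b j w : V) : M)

/-- degree at most n -/
def Dg (n : ℕ) (w : Fin k → K[X]) : Prop := ∀ j, n < j → co b j w = 0

theorem HH_add (n : ℕ) (w w' : Fin k → K[X]) : HH x z b n (w + w') = HH x z b n w + HH x z b n w' := by
  rw [HH, HH, HH, ← Finset.sum_add_distrib]
  refine Finset.sum_congr rfl fun j _ => ?_
  rw [co_add]
  push_cast
  rw [smul_add]

theorem HH_zero (n : ℕ) : HH x z b n 0 = 0 := by
  rw [HH]
  refine Finset.sum_eq_zero fun j _ => ?_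
  rw [co_zero]
  simp

theorem HH_sum {ι : Type*} (n : ℕ) (S : Finset ι) (w : ι → Fin k → K[X]) :
    HH x z b n (∑ a ∈ S, w a) = ∑ a ∈ S, HH x z b n (w a) := by
  classical
  induction S using Finset.induction_on with
  | empty => simp [HH_zero]
  | insert a S ha ih => rw [Finset.sum_insert ha, Finset.sum_insert ha, HH_add, ih]

theorem HH_smulC (n : ℕ) (c : K) (w : Fin k → K[X]) :
    HH x z b n ((C c : K[X]) • w) = c • HH x z b n w := by
  rw [HH, HH, Finset.smul_sum]
  refine Finset.sum_congr rfl fun j _ => ?_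
  rw [co_smulC]
  push_cast
  rw [smul_sc]

theorem HH_s (n : ℕ) (w : Fin k → K[X]) :
    HH x z b (n + 1) ((X : K[X]) • w) = z • HH x z b n w := by
  rw [HH, HH, Finset.sum_range_succ', co_X_zero, Finset.smul_sum]
  simp only [ZeroMemClass.coe_zero, smul_zero, add_zero]
  refine Finset.sum_congr rfl fun j _ => ?_
  rw [co_X_succ, smul_smul, Nat.add_sub_add_right]
  congr 1
  ring

variable {x z b}

theorem HH_up {n : ℕ} {w : Fin k → K[X]} (h : Dg b n w) :
    HH x z b (n + 1) w = x • HH x z b n w := by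
  rw [HH, HH, Finset.sum_range_succ, h (n + 1) (by omega), Finset.smul_sum]
  simp only [ZeroMemClass.coe_zero, smul_zero, add_zero]
  refine Finset.sum_congr rfl fun j hj => ?_
  have hj' := Finset.mem_range.1 hj
  rw [smul_smul]
  congr 1
  have h1 : n + 1 - j = (n - j) + 1 := by omega
  rw [h1]
  ring

theorem Dg.mono {n n' : ℕ} {w : Fin k → K[X]} (h : Dg b n w) (hn : n ≤ n') : Dg b n' w :=
  fun j hj => h j (by omega)

theorem Dg.s {n : ℕ} {w : Fin k → K[X]} (h : Dg b n w) : Dg b (n + 1) ((X : K[X]) • w) := by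
  intro j hj
  obtain ⟨l, rfl⟩ : ∃ l, j = l + 1 := ⟨j - 1, by omega⟩
  rw [co_X_succ]
  exact h l (by omega)

theorem Dg.D {n : ℕ} {w : Fin k → K[X]} (h : Dg b n w) (A B : V →ₗ[K] V) :
    Dg b (n + 1) (DD b A B w) := by
  intro j hj
  rw [co_DD, h j (by omega), h.s j hj, map_zero, map_zero, add_zero]

theorem Dg.add {n : ℕ} {w w' : Fin k → K[X]} (h : Dg b n w) (h' : Dg b n w') :
    Dg b n (w + w') := fun j hj => by rw [co_add, h j hj, h' j hj, add_zero]

theorem Dg.smulC {n : ℕ} {w : Fin k → K[X]} (h : Dg b n w) (c : K) :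
    Dg b n ((C c : K[X]) • w) := fun j hj => by rw [co_smulC, h j hj, smul_zero]

theorem Dg.sum {ι : Type*} {n : ℕ} {S : Finset ι} {w : ι → Fin k → K[X]}
    (h : ∀ a ∈ S, Dg b n (w a)) : Dg b n (∑ a ∈ S, w a) := by
  classical
  induction S using Finset.induction_on with
  | empty =>
    intro j _
    rw [Finset.sum_empty, co_zero]
  | insert a S ha ih =>
    rw [Finset.sum_insert ha]
    exact (h a (Finset.mem_insert_self a S)).add
      (ih fun a' ha' => h a' (Finset.mem_insert_of_mem ha'))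

theorem HH_D {n : ℕ} {w : Fin k → K[X]} (h : Dg b n w) {A B : V →ₗ[K] V}
    (hAB : ∀ v : V, y • (v : M) = x • (A v : M) + z • (B v : M)) :
    HH x z b (n + 1) (DD b A B w) = y • HH x z b n w := by
  have h0 : DD b A B w = xt (LinearMap.toMatrix b b A) w +
      (X : K[X]) • xt (LinearMap.toMatrix b b B) w := by
    rw [DD, xt, xt, map_add, map_smul, LinearMap.add_apply, LinearMap.smul_apply]
  have h1 : Dg b n (xt (LinearMap.toMatrix b b A) w) := fun j hj => by
    rw [co_xt, h j hj, map_zero]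
  rw [h0, HH_add, HH_s, HH_up h1, HH, HH, HH, Finset.smul_sum, Finset.smul_sum, Finset.smul_sum,
    ← Finset.sum_add_distrib]
  refine Finset.sum_congr rfl fun j _ => ?_
  rw [co_xt, co_xt, smul_smul y, mul_comm y, ← smul_smul _ y, hAB, smul_add]
  simp only [smul_smul]
  congr 1
  · congr 1
    ring
  · congr 1
    ring

/-- the constant vector -/
noncomputable def cst (b : Basis (Fin k) K V) (v : V) : Fin k → K[X] :=
  fun a => C (b.equivFun v a)

theorem co_cst_zero (v : V) : co b 0 (cst b v) = v := by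
  have h1 : v = b.equivFun.symm (b.equivFun v) := by simp
  rw [co]
  conv_rhs => rw [h1]
  congr 1
  funext a
  simp [cst]

theorem Dg_cst (v : V) : Dg b 0 (cst b v) := by
  intro j hj
  rw [co, ← map_zero b.equivFun.symm]
  congr 1
  funext a
  rw [cst, coeff_C, if_neg (by omega)]
  rfl

theorem mono_aux {A B : V →ₗ[K] V}
    (hAB : ∀ v : V, y • (v : M) = x • (A v : M) + z • (B v : M)) (v : V) (j : ℕ) :
    Dg b j ((DD b A B ^ j) (cst b v)) ∧
      HH x z b j ((DD b A B ^ j) (cst b v)) = y ^ j • (v : M) := by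
  induction j with
  | zero =>
    refine ⟨by simpa using Dg_cst v, ?_⟩
    simp [HH, co_cst_zero]
  | succ j ih =>
    rw [pow_succ', Module.End.mul_apply]
    refine ⟨ih.1.D A B, ?_⟩
    rw [HH_D ih.1 hAB, ih.2, smul_smul, pow_succ']

theorem mono_aux2 {A B : V →ₗ[K] V}
    (hAB : ∀ v : V, y • (v : M) = x • (A v : M) + z • (B v : M)) (v : V) (j l : ℕ) :
    Dg b (j + l) ((X : K[X]) ^ l • (DD b A B ^ j) (cst b v)) ∧
      HH x z b (j + l) ((X : K[X]) ^ l • (DD b A B ^ j) (cst b v)) =
        (z ^ l * y ^ j) • (v : M) := by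
  induction l with
  | zero =>
    have h := mono_aux (b := b) hAB v j
    simpa using h
  | succ l ih =>
    rw [pow_succ', mul_smul, ← add_assoc]
    refine ⟨ih.1.s, ?_⟩
    rw [HH_s, ih.2, smul_smul]
    congr 1
    ring

theorem HH_ups {n : ℕ} {w : Fin k → K[X]} (h : Dg b n w) (e : ℕ) :
    HH x z b (n + e) w = x ^ e • HH x z b n w := by
  induction e with
  | zero => simp
  | succ e ih =>
    rw [← add_assoc, HH_up (h.mono (by omega)), ih, smul_smul, pow_succ']

theorem mono_aux3 {A B : V →ₗ[K] V}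
    (hAB : ∀ v : V, y • (v : M) = x • (A v : M) + z • (B v : M)) (v : V) (j l i : ℕ)
    (hi : j + l ≤ i) :
    HH x z b i ((X : K[X]) ^ l • (DD b A B ^ j) (cst b v)) =
        (x ^ (i - (j + l)) * y ^ j * z ^ l) • (v : M) := by
  have h1 := mono_aux2 (b := b) hAB v j l
  have h2 := HH_ups (x := x) (z := z) h1.1 (i - (j + l))
  rw [Nat.add_sub_cancel' hi] at h2
  rw [h2, h1.2, smul_smul]
  congr 1
  ring

theorem HH_Q {i : ℕ} (hi : 1 ≤ i) {c : Basis (Fin m) K (UU x z V)}
    (hx : ∀ v ∈ V, x • v = 0 → v = 0) {w : Fin k → K[X]} (hw : w ∈ Qt (Xm b c) (Zm b c))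
    (hd : Dg b i w) : HH x z b i w = 0 := by
  obtain ⟨u, hu⟩ := (mem_Q b c).1 hw
  obtain ⟨N, hN⟩ := co_fin b u
  have h1 : ∀ d j, i ≤ j → N ≤ j + d → co b j u = 0 := by
    intro d
    induction d with
    | zero => exact fun j _ hj => hN j (by omega)
    | succ d ih =>
      intro j hij hj
      have h2 := hu (j + 1)
      rw [hd (j + 1) (by omega), co_X_succ, ih (j + 1) (by omega) (by omega)] at h2
      have h3 : x • ((co b j u : V) : M) = 0 := by
        have h4 : (0 : M) = - (x • ((co b j u : V) : M)) := by simpa using h2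
        rw [← neg_eq_zero, ← h4]
      exact Subtype.ext (hx _ (co b j u).2 h3)
  have h2 : ∀ j, i ≤ j → co b j u = 0 := fun j hj => h1 N j hj (by omega)
  obtain ⟨i', rfl⟩ : ∃ i', i = i' + 1 := ⟨i - 1, by omega⟩
  have h3 : ∀ n, n ≤ i' → ∑ j ∈ Finset.range (n + 1),
      (x ^ (i' + 1 - j) * z ^ j) • ((co b j w : V) : M) =
        (x ^ (i' - n) * z ^ (n + 1)) • ((co b n u : V) : M) := by
    intro n
    induction n with
    | zero =>
      intro _
      have h4 := hu 0
      rw [co_X_zero] at h4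
      have h5 : x • ((co b 0 w : V) : M) = z • ((co b 0 u : V) : M) := by simpa using h4
      rw [Finset.sum_range_one, Nat.sub_zero, Nat.sub_zero, pow_zero, mul_one, zero_add, pow_one,
        pow_succ, mul_smul, mul_smul, h5]
    | succ n ih =>
      intro hn
      have h4 := hu (n + 1)
      rw [co_X_succ] at h4
      rw [Finset.sum_range_succ, ih (by omega)]
      have h6 : i' + 1 - (n + 1) = (i' - (n + 1)) + 1 := by omega
      have h7 : i' - n = (i' - (n + 1)) + 1 := by omega
      rw [h6, h7]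
      have h8 : (x ^ (i' - (n + 1) + 1) * z ^ (n + 1)) • ((co b (n + 1) w : V) : M) =
          (x ^ (i' - (n + 1)) * z ^ (n + 1)) • (x • ((co b (n + 1) w : V) : M)) := by
        rw [smul_smul]
        congr 1
        ring
      rw [h8, h4, smul_sub, smul_smul, smul_smul]
      have h9 : x ^ (i' - (n + 1)) * z ^ (n + 1) * x = x ^ (i' - (n + 1) + 1) * z ^ (n + 1) := by
        ring
      have h10 : x ^ (i' - (n + 1)) * z ^ (n + 1) * z = x ^ (i' - (n + 1)) * z ^ (n + 1 + 1) := by
        ring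
      rw [h9, h10]
      abel
  have h4 := h3 i' le_rfl
  rw [HH, Finset.sum_range_succ, h4, Nat.sub_self, Nat.sub_self, pow_zero, one_mul,
    ← smul_add]
  have h5 := hu (i' + 1)
  rw [co_X_succ, h2 (i' + 1) le_rfl] at h5
  have h6 : x • (((co b i' u : V) : M) + ((co b (i' + 1) w : V) : M)) = 0 := by
    rw [smul_add, h5]
    simp
  have h7 := hx _ (V.add_mem (co b i' u).2 (co b (i' + 1) w).2) h6
  rw [h7, smul_zero]

end Pool.EG3.CH
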