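import Mathlib
import Pool.Agent.H85.EG3.Ch2

/-!
LEMMA CH (section 5 of EG3_PLAN_helper45): final statements `ch` (modules) and `ch_rho`
(algebra maps into endomorphisms).
-/

namespace Pool.EG3.CH

open Polynomial Module

set_option linter.unusedSectionVars false

variable {K : Type*} [Field K] {R : Type*} [CommRing R] [Algebra K R]
  {M : Type*} [AddCommGroup M] [Module K M] [Module R M] [IsScalarTower K R M]

/-- exponent vector -/
noncomputable def ex (i j l : ℕ) : Fin 3 →₀ ℕ :=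
  Finsupp.single 0 (i - (j + l)) + Finsupp.single 1 j + Finsupp.single 2 l

/-- homogenisation of a polynomial in s, Y to degree i -/
noncomputable def hom3 (i : ℕ) (g : K[X][X]) : MvPolynomial (Fin 3) K :=
  ∑ j ∈ Finset.range (g.natDegree + 1), ∑ l ∈ Finset.range (g.natDegree - j + 1),
    MvPolynomial.monomial (ex i j l) ((g.coeff j).coeff l)

theorem hom3_isHomogeneous {i : ℕ} {g : K[X][X]} (hi : g.natDegree ≤ i) :
    (hom3 i g).IsHomogeneous i := by
  refine MvPolynomial.IsHomogeneous.sum _ _ _ fun j hj => ?_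
  refine MvPolynomial.IsHomogeneous.sum _ _ _ fun l hl => ?_
  have hj' := Finset.mem_range.1 hj
  have hl' := Finset.mem_range.1 hl
  refine MvPolynomial.isHomogeneous_monomial _ ?_
  rw [ex, map_add, map_add, Finsupp.degree_single, Finsupp.degree_single, Finsupp.degree_single]
  omega

theorem aeval_hom3 {S : Type*} [CommRing S] [Algebra K S] (x y z : S) (i : ℕ) (g : K[X][X]) :
    MvPolynomial.aeval ![x, y, z] (hom3 i g) =
      ∑ j ∈ Finset.range (g.natDegree + 1), ∑ l ∈ Finset.range (g.natDegree - j + 1),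
        (g.coeff j).coeff l • (x ^ (i - (j + l)) * y ^ j * z ^ l) := by
  rw [hom3, map_sum]
  refine Finset.sum_congr rfl fun j _ => ?_
  rw [map_sum]
  refine Finset.sum_congr rfl fun l _ => ?_
  rw [MvPolynomial.aeval_monomial, ex, Finsupp.prod_add_index' (by simp) (by intros; rw [pow_add]),
    Finsupp.prod_add_index' (by simp) (by intros; rw [pow_add]), Finsupp.prod_single_index (by simp),
    Finsupp.prod_single_index (by simp), Finsupp.prod_single_index (by simp), Algebra.smul_def]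
  simp

theorem coeff_sum {g : K[X][X]} (ht : ∀ j l, g.natDegree < j + l → (g.coeff j).coeff l = 0)
    {j : ℕ} (hj : j ≤ g.natDegree) :
    g.coeff j = ∑ l ∈ Finset.range (g.natDegree - j + 1), C ((g.coeff j).coeff l) * X ^ l := by
  have h1 : (g.coeff j).natDegree < g.natDegree - j + 1 := by
    rw [Nat.lt_succ_iff, natDegree_le_iff_coeff_eq_zero]
    intro l hl
    exact ht j l (by omega)
  exact as_sum_range_C_mul_X_pow' _ h1

theorem hom3_ne_zero {i : ℕ} {g : K[X][X]} (hg : g.Monic)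
    (ht : ∀ j l, g.natDegree < j + l → (g.coeff j).coeff l = 0) : hom3 i g ≠ 0 := by
  intro h
  have h1 := aeval_hom3 (K := K) (1 : K[X][X]) X (C X) i g
  rw [h, map_zero] at h1
  have h2 : g = ∑ j ∈ Finset.range (g.natDegree + 1),
      ∑ l ∈ Finset.range (g.natDegree - j + 1),
        (g.coeff j).coeff l • ((1 : K[X][X]) ^ (i - (j + l)) * X ^ j * (C X) ^ l) := by
    conv_lhs => rw [g.as_sum_range_C_mul_X_pow]
    refine Finset.sum_congr rfl fun j hj => ?_
    have hj' := Finset.mem_range.1 hj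
    conv_lhs => rw [coeff_sum ht (show j ≤ g.natDegree by omega), map_sum, Finset.sum_mul]
    refine Finset.sum_congr rfl fun l _ => ?_
    rw [one_pow, one_mul, Algebra.smul_def, map_mul, map_pow]
    have h3 : (algebraMap K K[X][X]) ((g.coeff j).coeff l) = C (C ((g.coeff j).coeff l)) := rfl
    rw [h3]
    ring
  rw [← h1] at h2
  exact hg.ne_zero h2

/-- LEMMA CH, module form. -/
theorem ch [IsAlgClosed K] (x y z : R) (V : Submodule K M) [FiniteDimensional K V] (i : ℕ)
    (hi : 1 ≤ i) (h1 : ∀ v ∈ V, y • v ∈ UU x z V)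
    (hx : ∀ v ∈ V, x • v = 0 → v = 0)
    (hz : ∀ s : K, ∀ v ∈ V, z • v = s • (x • v) → v = 0)
    (hd : finrank K (UU x z V) = finrank K V + i)
    (hk : ∀ p ∈ UU x z V, ∀ q ∈ UU x z V, x • p = z • q → ∃ u ∈ V, p = z • u ∧ q = x • u) :
    ∃ F : MvPolynomial (Fin 3) K, F.IsHomogeneous i ∧ F ≠ 0 ∧
      ∀ v ∈ V, MvPolynomial.aeval ![x, y, z] F • v = 0 := by
  obtain ⟨A, B, hAB⟩ := exists_AB x y z V h1
  have : FiniteDimensional K (UU x z V) := by
    rw [UU]
    infer_instance
  let b := Module.finBasis K V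
  let c := Module.finBasis K (UU x z V)
  have hinj : ∀ (s : K) (v : Fin (finrank K V) → K),
      (Zm b c - s • Xm b c).mulVec v = 0 → v = 0 := by
    intro s v hv
    have h2 : (Zm b c - s • Xm b c) = LinearMap.toMatrix b c (zV x z V - s • xV x z V) := by
      rw [map_sub, map_smul]
      rfl
    have h3 : v = ⇑(b.repr (b.equivFun.symm v)) := (b.equivFun.apply_symm_apply v).symm
    rw [h2, h3, LinearMap.toMatrix_mulVec_repr] at hv
    have h4 : (zV x z V - s • xV x z V) (b.equivFun.symm v) = 0 := by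
      apply c.equivFun.injective
      rw [map_zero]
      exact hv
    have h5 := congrArg Subtype.val h4
    have h6 : z • ((b.equivFun.symm v : V) : M) - s • (x • ((b.equivFun.symm v : V) : M)) = 0 := h5
    have h7 := hz s _ (b.equivFun.symm v).2 (sub_eq_zero.1 h6)
    have h8 : b.equivFun.symm v = 0 := Subtype.ext h7
    exact (map_eq_zero_iff _ b.equivFun.symm.injective).1 h8
  obtain ⟨g, hg, hn, ht, hQ⟩ := core (A := LinearMap.toMatrix b b A) (B := LinearMap.toMatrix b b B)
    hinj hd (fun w hw => stab b c hAB hx hk w hw)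
  refine ⟨hom3 i g, hom3_isHomogeneous hn, hom3_ne_zero hg ht, fun v hv => ?_⟩
  have hsum : (aeval (DD b A B) g) (cst b ⟨v, hv⟩) =
      ∑ j ∈ Finset.range (g.natDegree + 1), ∑ l ∈ Finset.range (g.natDegree - j + 1),
        (C ((g.coeff j).coeff l) : K[X]) • ((X : K[X]) ^ l • (DD b A B ^ j) (cst b ⟨v, hv⟩)) := by
    rw [aeval_eq_sum_range, LinearMap.sum_apply]
    refine Finset.sum_congr rfl fun j hj => ?_
    have hj' := Finset.mem_range.1 hj
    rw [LinearMap.smul_apply]
    conv_lhs => rw [coeff_sum ht (show j ≤ g.natDegree by omega), Finset.sum_smul]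
    refine Finset.sum_congr rfl fun l _ => ?_
    rw [mul_smul]
  have hdg : Dg b i ((aeval (DD b A B) g) (cst b ⟨v, hv⟩)) := by
    rw [hsum]
    refine Dg.sum fun j hj => Dg.sum fun l hl => ?_
    have hj' := Finset.mem_range.1 hj
    have hl' := Finset.mem_range.1 hl
    exact (((mono_aux2 (b := b) hAB ⟨v, hv⟩ j l).1).smulC _).mono (by omega)
  have h2 : HH x z b i ((aeval (DD b A B) g) (cst b ⟨v, hv⟩)) = 0 :=
    HH_Q hi hx (hQ (cst b ⟨v, hv⟩)) hdg
  rw [hsum, HH_sum] at h2
  rw [aeval_hom3, Finset.sum_smul, ← h2]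
  refine Finset.sum_congr rfl fun j hj => ?_
  rw [HH_sum, Finset.sum_smul]
  refine Finset.sum_congr rfl fun l hl => ?_
  have hj' := Finset.mem_range.1 hj
  have hl' := Finset.mem_range.1 hl
  rw [HH_smulC, mono_aux3 hAB ⟨v, hv⟩ j l i (by omega), smul_assoc]

/-- LEMMA CH for a K-algebra R acting on a K-space M by `ρ`. -/
theorem ch_rho [IsAlgClosed K] {M : Type*} [AddCommGroup M] [Module K M]
    (ρ : R →ₐ[K] Module.End K M) (x y z : R) (V : Submodule K M) [FiniteDimensional K V] (i : ℕ)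
    (hi : 1 ≤ i) (h1 : ∀ v ∈ V, ρ y v ∈ V.map (ρ x) ⊔ V.map (ρ z))
    (hx : ∀ v ∈ V, ρ x v = 0 → v = 0)
    (hz : ∀ s : K, ∀ v ∈ V, ρ z v = s • ρ x v → v = 0)
    (hd : finrank K (V.map (ρ x) ⊔ V.map (ρ z) : Submodule K M) = finrank K V + i)
    (hk : ∀ p ∈ V.map (ρ x) ⊔ V.map (ρ z), ∀ q ∈ V.map (ρ x) ⊔ V.map (ρ z),
      ρ x p = ρ z q → ∃ u ∈ V, p = ρ z u ∧ q = ρ x u) :
    ∃ F : MvPolynomial (Fin 3) K, F.IsHomogeneous i ∧ F ≠ 0 ∧
      ∀ v ∈ V, ρ (MvPolynomial.aeval ![x, y, z] F) v = 0 := by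
  letI : Module R M := Module.compHom M ρ.toRingHom
  haveI : IsScalarTower K R M := ⟨fun c r m => by
    have h : (c • r) • m = ρ (c • r) m := rfl
    rw [h, map_smul]
    rfl⟩
  have hU : UU x z V = V.map (ρ x) ⊔ V.map (ρ z) := by
    have ex' : (ml M x : M →ₗ[K] M) = ρ x := rfl
    have ez' : (ml M z : M →ₗ[K] M) = ρ z := rfl
    rw [UU, ex', ez']
  exact ch x y z V i hi (by rw [hU]; exact h1) hx hz (by rw [hU]; exact hd) (by rw [hU]; exact hk)

end Pool.EG3.CH
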