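import Mathlib
import Pool.Agent.H85.EG3.Co
import Pool.Agent.H85.EG3.Ch3
import Pool.Agent.H45.EG3.S1

/-!
CHA: the lemma of Cayley and Hamilton for vector spaces (row CHA of `eg3`).
-/

namespace Pool.EG3.CHA

open Polynomial Module Pool.EG3.CH

set_option linter.unusedSectionVars false

section Stab

variable {K : Type*} [Field K] {V M N : Type*} [AddCommGroup V] [Module K V] [AddCommGroup M]
  [Module K M] [AddCommGroup N] [Module K N] {k m : ℕ} (b : Basis (Fin k) K V)
  (c : Basis (Fin m) K M) {x y z : V →ₗ[K] M} {x' y' z' : M →ₗ[K] N}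

theorem exists_AB' (hs : ∀ p : M, ∃ v w, p = x v + z w) (y : V →ₗ[K] M) :
    ∃ A B : V →ₗ[K] V, ∀ v : V, y v = x (A v) + z (B v) := by
  let Ψ : (V × V) →ₗ[K] M := x.coprod z
  have hΨ : Function.Surjective Ψ := by
    intro p
    obtain ⟨v, w, h⟩ := hs p
    exact ⟨(v, w), by rw [LinearMap.coprod_apply]; exact h.symm⟩
  obtain ⟨σ, hσ⟩ := Ψ.exists_rightInverse_of_surjective (LinearMap.range_eq_top.2 hΨ)
  refine ⟨(LinearMap.fst K V V).comp (σ.comp y), (LinearMap.snd K V V).comp (σ.comp y),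
    fun v => ?_⟩
  have h2 : Ψ (σ (y v)) = y v := LinearMap.congr_fun hσ (y v)
  rw [LinearMap.coprod_apply] at h2
  exact h2.symm

/-- the operator A + s B -/
noncomputable def DD (A B : V →ₗ[K] V) : Module.End K[X] (Fin k → K[X]) :=
  Matrix.toLin' ((LinearMap.toMatrix b b A).map C + (X : K[X]) • (LinearMap.toMatrix b b B).map C)

theorem mem_Q {w : Fin k → K[X]} :
    w ∈ Qt (LinearMap.toMatrix b c x) (LinearMap.toMatrix b c z) ↔ ∃ u : Fin k → K[X], ∀ j,
      x (co b j w) = z (co b j u) - x (co b j ((X : K[X]) • u)) := by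
  have h0 : ∀ u : Fin k → K[X], zt (LinearMap.toMatrix b c x) (LinearMap.toMatrix b c z) u =
      xt (LinearMap.toMatrix b c z) u - xt (LinearMap.toMatrix b c x) ((X : K[X]) • u) := by
    intro u
    rw [zt, xt, xt, map_sub, map_smul, LinearMap.sub_apply, LinearMap.smul_apply, map_smul]
  rw [mem_Qt]
  refine exists_congr fun u => ?_
  rw [h0]
  constructor
  · intro h j
    have h1 := congrArg (co c j) h
    rw [co_sub, co_xt, co_xt, co_xt] at h1
    exact h1.symm
  · intro h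
    refine co_ext c _ _ fun j => ?_
    rw [co_sub, co_xt, co_xt, co_xt]
    exact (h j).symm

theorem co_DD (A B : V →ₗ[K] V) (j : ℕ) (w : Fin k → K[X]) :
    co b j (DD b A B w) = A (co b j w) + B (co b j ((X : K[X]) • w)) := by
  have h0 : DD b A B w = xt (LinearMap.toMatrix b b A) w +
      xt (LinearMap.toMatrix b b B) ((X : K[X]) • w) := by
    rw [DD, xt, xt, map_add, map_smul, LinearMap.add_apply, LinearMap.smul_apply, map_smul]
  rw [h0, co_add, co_xt, co_xt]

theorem stab {A B : V →ₗ[K] V} (hAB : ∀ v : V, y v = x (A v) + z (B v))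
    (c1 : ∀ v, x' (y v) = y' (x v)) (c2 : ∀ v, x' (z v) = z' (x v))
    (c3 : ∀ v, y' (z v) = z' (y v))
    (hx : ∀ v, x v = 0 → v = 0)
    (hk : ∀ p q, x' p = z' q → ∃ u, p = z u ∧ q = x u) :
    ∀ w ∈ Qt (LinearMap.toMatrix b c x) (LinearMap.toMatrix b c z),
      DD b A B w ∈ Qt (LinearMap.toMatrix b c x) (LinearMap.toMatrix b c z) := by
  intro w hw
  obtain ⟨u, hu⟩ := (mem_Q b c).1 hw
  have h1 : ∀ j, ∃ r : V,
      y (co b j w) - z (A (co b j u)) + x (A (co b j ((X : K[X]) • u))) = z r ∧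
      z (B (co b j u)) - x (B (co b j ((X : K[X]) • u))) = x r := by
    intro j
    refine hk _ _ ?_
    have h4 := congrArg y' (hu j)
    rw [map_sub, ← c1, c3, ← c1, hAB (co b j u), hAB (co b j ((X : K[X]) • u))] at h4
    rw [map_add, map_sub, h4]
    simp only [map_add, map_sub, c2]
    abel
  choose r hr1 hr2 using h1
  obtain ⟨N0, hN⟩ := co_fin b u
  have hr0 : ∀ j, N0 + 1 ≤ j → r j = 0 := by
    intro j hj
    obtain ⟨l, rfl⟩ : ∃ l, j = l + 1 := ⟨j - 1, by omega⟩
    have h2 := hr2 (l + 1)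
    rw [co_X_succ, hN (l + 1) (by omega), hN l (by omega), map_zero, map_zero, map_zero,
      sub_zero] at h2
    exact hx _ h2.symm
  obtain ⟨ρ, hρ⟩ := co_mk b r (N0 + 1) hr0
  have hρ2 : ∀ j, x (co b j ((X : K[X]) • ρ)) =
      z (B (co b j ((X : K[X]) • u))) - x (B (co b j ((X : K[X]) • ((X : K[X]) • u)))) := by
    intro j
    cases j with
    | zero => rw [co_X_zero, co_X_zero, co_X_zero, map_zero]; simp
    | succ j => rw [co_X_succ, co_X_succ, co_X_succ, hρ, hr2]
  refine (mem_Q b c).2 ⟨ρ - xt (LinearMap.toMatrix b b B) w + DD b A B u, fun j => ?_⟩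
  have h5 : (X : K[X]) • (ρ - xt (LinearMap.toMatrix b b B) w + DD b A B u) =
      (X : K[X]) • ρ - xt (LinearMap.toMatrix b b B) ((X : K[X]) • w) +
        DD b A B ((X : K[X]) • u) := by
    rw [smul_add, smul_sub, map_smul, map_smul]
  rw [h5, co_add, co_add, co_sub, co_sub, co_xt, co_xt, co_DD, co_DD, co_DD, hρ]
  have h6 := hr1 j
  have h7 := hAB (co b j w)
  have h8 := hρ2 j
  simp only [map_add, map_sub]
  rw [← h6, h7, h8]
  abel

end Stab

section Hom

variable {K : Type*} [Field K] {V M Ω : Type*} [AddCommGroup V] [Module K V] [AddCommGroup M]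
  [Module K M] {R : Type*} [CommRing R] [Algebra K R] [AddCommGroup Ω] [Module K Ω] [Module R Ω]
  [IsScalarTower K R Ω] {k m : ℕ} {x y z : V →ₗ[K] M} (X0 X2 : R) (ι₀ : V →ₗ[K] Ω)
  (b : Basis (Fin k) K V)

/-- the homogenised value -/
noncomputable def HH (n : ℕ) (w : Fin k → K[X]) : Ω :=
  ∑ j ∈ Finset.range (n + 1), (X0 ^ (n - j) * X2 ^ j) • ι₀ (co b j w)

/-- degree at most n -/
def Dg (n : ℕ) (w : Fin k → K[X]) : Prop := ∀ j, n < j → co b j w = 0

theorem HH_add (n : ℕ) (w w' : Fin k → K[X]) :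
    HH X0 X2 ι₀ b n (w + w') = HH X0 X2 ι₀ b n w + HH X0 X2 ι₀ b n w' := by
  rw [HH, HH, HH, ← Finset.sum_add_distrib]
  refine Finset.sum_congr rfl fun j _ => ?_
  rw [co_add, map_add, smul_add]

theorem HH_zero (n : ℕ) : HH X0 X2 ι₀ b n 0 = 0 := by
  rw [HH]
  refine Finset.sum_eq_zero fun j _ => ?_
  rw [co_zero, map_zero, smul_zero]

theorem HH_sum {ι : Type*} (n : ℕ) (S : Finset ι) (w : ι → Fin k → K[X]) :
    HH X0 X2 ι₀ b n (∑ a ∈ S, w a) = ∑ a ∈ S, HH X0 X2 ι₀ b n (w a) := by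
  classical
  induction S using Finset.induction_on with
  | empty => simp [HH_zero]
  | insert a S ha ih => rw [Finset.sum_insert ha, Finset.sum_insert ha, HH_add, ih]

theorem HH_smulC (n : ℕ) (c : K) (w : Fin k → K[X]) :
    HH X0 X2 ι₀ b n ((C c : K[X]) • w) = c • HH X0 X2 ι₀ b n w := by
  rw [HH, HH, Finset.smul_sum]
  refine Finset.sum_congr rfl fun j _ => ?_
  rw [co_smulC, map_smul, smul_sc]

theorem HH_s (n : ℕ) (w : Fin k → K[X]) :
    HH X0 X2 ι₀ b (n + 1) ((X : K[X]) • w) = X2 • HH X0 X2 ι₀ b n w := by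
  rw [HH, HH, Finset.sum_range_succ', co_X_zero, Finset.smul_sum]
  simp only [map_zero, smul_zero, add_zero]
  refine Finset.sum_congr rfl fun j _ => ?_
  rw [co_X_succ, smul_smul, Nat.add_sub_add_right]
  congr 1
  ring

variable {X0 X2 ι₀ b}

theorem HH_up {n : ℕ} {w : Fin k → K[X]} (h : Dg b n w) :
    HH X0 X2 ι₀ b (n + 1) w = X0 • HH X0 X2 ι₀ b n w := by
  rw [HH, HH, Finset.sum_range_succ, h (n + 1) (by omega), Finset.smul_sum]
  simp only [map_zero, smul_zero, add_zero]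
  refine Finset.sum_congr rfl fun j hj => ?_
  have hj' := Finset.mem_range.1 hj
  rw [smul_smul]
  congr 1
  have h1 : n + 1 - j = (n - j) + 1 := by omega
  rw [h1]
  ring

theorem Dg.mono {n n' : ℕ} {w : Fin k → K[X]} (h : Dg b n w) (hn : n ≤ n') : Dg b n' w :=
  fun j hj => h j (by omega)

theorem Dg.s {n : ℕ} {w : Fin k → K[X]} (h : Dg b n w) : Dg b (n + 1) ((X : K[X]) • w) := by
  intro j hj
  obtain ⟨l, rfl⟩ : ∃ l, j = l + 1 := ⟨j - 1, by omega⟩
  rw [co_X_succ]
  exact h l (by omega)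

theorem Dg.D {n : ℕ} {w : Fin k → K[X]} (h : Dg b n w) (A B : V →ₗ[K] V) :
    Dg b (n + 1) (DD b A B w) := by
  intro j hj
  rw [co_DD, h j (by omega), h.s j hj, map_zero, map_zero, add_zero]

theorem Dg.add {n : ℕ} {w w' : Fin k → K[X]} (h : Dg b n w) (h' : Dg b n w') :
    Dg b n (w + w') := fun j hj => by rw [co_add, h j hj, h' j hj, add_zero]

theorem Dg.smulC {n : ℕ} {w : Fin k → K[X]} (h : Dg b n w) (c : K) :
    Dg b n ((C c : K[X]) • w) := fun j hj => by rw [co_smulC, h j hj, smul_zero]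

theorem Dg.sum {ι : Type*} {n : ℕ} {S : Finset ι} {w : ι → Fin k → K[X]}
    (h : ∀ a ∈ S, Dg b n (w a)) : Dg b n (∑ a ∈ S, w a) := by
  classical
  induction S using Finset.induction_on with
  | empty =>
    intro j _
    rw [Finset.sum_empty, co_zero]
  | insert a S ha ih =>
    rw [Finset.sum_insert ha]
    exact (h a (Finset.mem_insert_self a S)).add
      (ih fun a' ha' => h a' (Finset.mem_insert_of_mem ha'))

theorem HH_D {X1 : R} {n : ℕ} {w : Fin k → K[X]} (h : Dg b n w) {A B : V →ₗ[K] V}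
    (hAB : ∀ v : V, X1 • ι₀ v = X0 • ι₀ (A v) + X2 • ι₀ (B v)) :
    HH X0 X2 ι₀ b (n + 1) (DD b A B w) = X1 • HH X0 X2 ι₀ b n w := by
  have h0 : DD b A B w = xt (LinearMap.toMatrix b b A) w +
      (X : K[X]) • xt (LinearMap.toMatrix b b B) w := by
    rw [DD, xt, xt, map_add, map_smul, LinearMap.add_apply, LinearMap.smul_apply]
  have h1 : Dg b n (xt (LinearMap.toMatrix b b A) w) := fun j hj => by
    rw [co_xt, h j hj, map_zero]
  rw [h0, HH_add, HH_s, HH_up h1, HH, HH, HH, Finset.smul_sum, Finset.smul_sum, Finset.smul_sum,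
    ← Finset.sum_add_distrib]
  refine Finset.sum_congr rfl fun j _ => ?_
  rw [co_xt, co_xt, smul_smul X1, mul_comm X1, ← smul_smul _ X1, hAB, smul_add]
  simp only [smul_smul]
  congr 1
  · congr 1
    ring
  · congr 1
    ring

/-- the constant vector -/
noncomputable def cst (b : Basis (Fin k) K V) (v : V) : Fin k → K[X] :=
  fun a => C (b.equivFun v a)

theorem co_cst_zero (v : V) : co b 0 (cst b v) = v := by
  have h1 : v = b.equivFun.symm (b.equivFun v) := by simp
  rw [co]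
  conv_rhs => rw [h1]
  congr 1
  funext a
  simp [cst]

theorem Dg_cst (v : V) : Dg b 0 (cst b v) := by
  intro j hj
  rw [co, ← map_zero b.equivFun.symm]
  congr 1
  funext a
  rw [cst, coeff_C, if_neg (by omega)]
  rfl

theorem mono_aux {X1 : R} {A B : V →ₗ[K] V}
    (hAB : ∀ v : V, X1 • ι₀ v = X0 • ι₀ (A v) + X2 • ι₀ (B v)) (v : V) (j : ℕ) :
    Dg b j ((DD b A B ^ j) (cst b v)) ∧
      HH X0 X2 ι₀ b j ((DD b A B ^ j) (cst b v)) = X1 ^ j • ι₀ v := by
  induction j with
  | zero =>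
    refine ⟨by simpa using Dg_cst v, ?_⟩
    simp [HH, co_cst_zero]
  | succ j ih =>
    rw [pow_succ', Module.End.mul_apply]
    refine ⟨ih.1.D A B, ?_⟩
    rw [HH_D ih.1 hAB, ih.2, smul_smul, pow_succ']

theorem mono_aux2 {X1 : R} {A B : V →ₗ[K] V}
    (hAB : ∀ v : V, X1 • ι₀ v = X0 • ι₀ (A v) + X2 • ι₀ (B v)) (v : V) (j l : ℕ) :
    Dg b (j + l) ((X : K[X]) ^ l • (DD b A B ^ j) (cst b v)) ∧
      HH X0 X2 ι₀ b (j + l) ((X : K[X]) ^ l • (DD b A B ^ j) (cst b v)) =
        (X2 ^ l * X1 ^ j) • ι₀ v := by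
  induction l with
  | zero =>
    have h := mono_aux (b := b) hAB v j
    simpa using h
  | succ l ih =>
    rw [pow_succ', mul_smul, ← add_assoc]
    refine ⟨ih.1.s, ?_⟩
    rw [HH_s, ih.2, smul_smul]
    congr 1
    ring

theorem HH_ups {n : ℕ} {w : Fin k → K[X]} (h : Dg b n w) (e : ℕ) :
    HH X0 X2 ι₀ b (n + e) w = X0 ^ e • HH X0 X2 ι₀ b n w := by
  induction e with
  | zero => simp
  | succ e ih =>
    rw [← add_assoc, HH_up (h.mono (by omega)), ih, smul_smul, pow_succ']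

theorem mono_aux3 {X1 : R} {A B : V →ₗ[K] V}
    (hAB : ∀ v : V, X1 • ι₀ v = X0 • ι₀ (A v) + X2 • ι₀ (B v)) (v : V) (j l i : ℕ)
    (hi : j + l ≤ i) :
    HH X0 X2 ι₀ b i ((X : K[X]) ^ l • (DD b A B ^ j) (cst b v)) =
        (X0 ^ (i - (j + l)) * X1 ^ j * X2 ^ l) • ι₀ v := by
  have h1 := mono_aux2 (b := b) hAB v j l
  have h2 := HH_ups (X0 := X0) (X2 := X2) (ι₀ := ι₀) h1.1 (i - (j + l))
  rw [Nat.add_sub_cancel' hi] at h2
  rw [h2, h1.2, smul_smul]
  congr 1
  ring

theorem HH_Q {i : ℕ} (hi : 1 ≤ i) {c : Basis (Fin m) K M} {ι₁ : M →ₗ[K] Ω}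
    (e0 : ∀ v, X0 • ι₀ v = ι₁ (x v)) (e2 : ∀ v, X2 • ι₀ v = ι₁ (z v))
    (hx : ∀ v, x v = 0 → v = 0) {w : Fin k → K[X]}
    (hw : w ∈ Qt (LinearMap.toMatrix b c x) (LinearMap.toMatrix b c z))
    (hd : Dg b i w) : HH X0 X2 ι₀ b i w = 0 := by
  obtain ⟨u, hu⟩ := (mem_Q b c).1 hw
  obtain ⟨N0, hN⟩ := co_fin b u
  have h1 : ∀ d j, i ≤ j → N0 ≤ j + d → co b j u = 0 := by
    intro d
    induction d with
    | zero => exact fun j _ hj => hN j (by omega)
    | succ d ih =>
      intro j hij hj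
      have h2 := hu (j + 1)
      rw [hd (j + 1) (by omega), co_X_succ, ih (j + 1) (by omega) (by omega), map_zero, map_zero,
        zero_sub] at h2
      exact hx _ (neg_eq_zero.1 h2.symm)
  have h2 : ∀ j, i ≤ j → co b j u = 0 := fun j hj => h1 N0 j hj (by omega)
  obtain ⟨i', rfl⟩ : ∃ i', i = i' + 1 := ⟨i - 1, by omega⟩
  have hu' : ∀ j, X0 • ι₀ (co b j w) = X2 • ι₀ (co b j u) - X0 • ι₀ (co b j ((X : K[X]) • u)) := by
    intro j
    rw [e0, e2, e0, hu j, map_sub]
  have h3 : ∀ n, n ≤ i' → ∑ j ∈ Finset.range (n + 1),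
      (X0 ^ (i' + 1 - j) * X2 ^ j) • ι₀ (co b j w) =
        (X0 ^ (i' - n) * X2 ^ (n + 1)) • ι₀ (co b n u) := by
    intro n
    induction n with
    | zero =>
      intro _
      have h4 := hu' 0
      rw [co_X_zero, map_zero, smul_zero, sub_zero] at h4
      rw [Finset.sum_range_one, Nat.sub_zero, Nat.sub_zero, pow_zero, mul_one, zero_add, pow_one,
        pow_succ, mul_smul, mul_smul, h4]
    | succ n ih =>
      intro hn
      have h4 := hu' (n + 1)
      rw [co_X_succ] at h4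
      rw [Finset.sum_range_succ, ih (by omega)]
      have h6 : i' + 1 - (n + 1) = (i' - (n + 1)) + 1 := by omega
      have h7 : i' - n = (i' - (n + 1)) + 1 := by omega
      rw [h6, h7]
      have h8 : (X0 ^ (i' - (n + 1) + 1) * X2 ^ (n + 1)) • ι₀ (co b (n + 1) w) =
          (X0 ^ (i' - (n + 1)) * X2 ^ (n + 1)) • (X0 • ι₀ (co b (n + 1) w)) := by
        rw [smul_smul]
        congr 1
        ring
      rw [h8, h4, smul_sub, smul_smul, smul_smul]
      have h9 : X0 ^ (i' - (n + 1)) * X2 ^ (n + 1) * X0 =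
          X0 ^ (i' - (n + 1) + 1) * X2 ^ (n + 1) := by
        ring
      have h10 : X0 ^ (i' - (n + 1)) * X2 ^ (n + 1) * X2 =
          X0 ^ (i' - (n + 1)) * X2 ^ (n + 1 + 1) := by
        ring
      rw [h9, h10]
      abel
  have h4 := h3 i' le_rfl
  rw [HH, Finset.sum_range_succ, h4, Nat.sub_self, Nat.sub_self, pow_zero, one_mul,
    ← smul_add, ← map_add]
  have h5 := hu (i' + 1)
  rw [co_X_succ, h2 (i' + 1) le_rfl, map_zero, zero_sub] at h5
  have h6 : x (co b i' u + co b (i' + 1) w) = 0 := by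
    rw [map_add, h5]
    simp
  rw [hx _ h6, map_zero, smul_zero]

end Hom

/-- Row CHA. -/
theorem t_cha : CHAStmt := by
  intro K _ _ V M N _ _ _ _ _ _ _ _ x y z x' y' z' i c1 c2 c3 hinj hs hk hd
  have hx : ∀ v, x v = 0 → v = 0 := by
    intro v hv
    exact hinj 1 0 (Or.inl one_ne_zero) v (by rw [hv]; simp)
  have hz : ∀ (s : K) (v : V), z v = s • x v → v = 0 := by
    intro s v hv
    exact hinj (-s) 1 (Or.inr one_ne_zero) v (by rw [hv]; simp)
  rcases Nat.eq_zero_or_pos i with rfl | hi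
  · -- no nonzero vectors
    have hV : ∀ v : V, v = 0 := by
      by_contra hne
      push Not at hne
      obtain ⟨v0, hv0⟩ := hne
      have hnt : Nontrivial V := ⟨v0, 0, hv0⟩
      have hxi : Function.Injective x := (injective_iff_map_eq_zero x).2 hx
      let e : V ≃ₗ[K] M := LinearEquiv.ofInjectiveOfFinrankEq x hxi (by omega)
      have he : ∀ v, e v = x v := fun v => rfl
      obtain ⟨s, hsv⟩ := Module.End.exists_eigenvalue
        ((e.symm : M →ₗ[K] V).comp z : Module.End K V)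
      obtain ⟨v, hv⟩ := hsv.exists_hasEigenvector
      have h1 : e.symm (z v) = s • v := hv.apply_eq_smul
      have h2 : z v = s • x v := by
        rw [← he, ← map_smul, ← h1, LinearEquiv.apply_symm_apply]
      exact hv.2 (hz s v h2)
    refine ⟨0, le_rfl, 1, ?_, one_ne_zero, ?_⟩
    · exact MvPolynomial.isHomogeneous_one _ _
    · intro Ω _ _ _ _ ι₀ ι₁ _ _ _ v
      rw [hV v, map_zero, smul_zero]
  · obtain ⟨A, B, hAB⟩ := exists_AB' hs y
    let b := Module.finBasis K V
    let c := Module.finBasis K M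
    have hm : ∀ (s : K) (v : Fin (finrank K V) → K),
        (LinearMap.toMatrix b c z - s • LinearMap.toMatrix b c x).mulVec v = 0 → v = 0 := by
      intro s v hv
      have h2 : (LinearMap.toMatrix b c z - s • LinearMap.toMatrix b c x) =
          LinearMap.toMatrix b c (z - s • x) := by
        rw [map_sub, map_smul]
      have h3 : v = ⇑(b.repr (b.equivFun.symm v)) := (b.equivFun.apply_symm_apply v).symm
      rw [h2, h3, LinearMap.toMatrix_mulVec_repr] at hv
      have h4 : (z - s • x) (b.equivFun.symm v) = 0 := by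
        apply c.equivFun.injective
        rw [map_zero]
        exact hv
      have h6 : z (b.equivFun.symm v) - s • x (b.equivFun.symm v) = 0 := h4
      have h8 := hz s _ (sub_eq_zero.1 h6)
      exact (map_eq_zero_iff _ b.equivFun.symm.injective).1 h8
    have hk' : ∀ p q, x' p = z' q → ∃ u, p = z u ∧ q = x u := by
      intro p q hpq
      obtain ⟨v, h1, h2⟩ := hk p (-q) (by rw [hpq, map_neg, add_neg_cancel])
      exact ⟨v, h1, neg_injective h2⟩
    obtain ⟨g, hg, hn, ht, hQ⟩ := core (A := LinearMap.toMatrix b b A)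
      (B := LinearMap.toMatrix b b B) hm hd
      (fun w hw => stab b c hAB c1 c2 c3 hx hk' w hw)
    refine ⟨i, le_rfl, hom3 i g, ?_, hom3_ne_zero hg ht, ?_⟩
    · exact hom3_isHomogeneous hn
    intro Ω _ _ _ _ ι₀ ι₁ e0 e1 e2 v
    have hAB' : ∀ v : V, (MvPolynomial.X 1 : MvPolynomial (Fin 3) K) • ι₀ v =
        (MvPolynomial.X 0 : MvPolynomial (Fin 3) K) • ι₀ (A v) +
          (MvPolynomial.X 2 : MvPolynomial (Fin 3) K) • ι₀ (B v) := by
      intro v
      rw [e1, e0, e2, hAB, map_add]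
    have hsum : (aeval (DD b A B) g) (cst b v) =
        ∑ j ∈ Finset.range (g.natDegree + 1), ∑ l ∈ Finset.range (g.natDegree - j + 1),
          (C ((g.coeff j).coeff l) : K[X]) • ((X : K[X]) ^ l • (DD b A B ^ j) (cst b v)) := by
      rw [aeval_eq_sum_range, LinearMap.sum_apply]
      refine Finset.sum_congr rfl fun j hj => ?_
      have hj' := Finset.mem_range.1 hj
      rw [LinearMap.smul_apply]
      conv_lhs => rw [coeff_sum ht (show j ≤ g.natDegree by omega), Finset.sum_smul]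
      refine Finset.sum_congr rfl fun l _ => ?_
      rw [mul_smul]
    have hdg : Dg b i ((aeval (DD b A B) g) (cst b v)) := by
      rw [hsum]
      refine Dg.sum fun j hj => Dg.sum fun l hl => ?_
      have hj' := Finset.mem_range.1 hj
      have hl' := Finset.mem_range.1 hl
      exact (((mono_aux2 (b := b) hAB' v j l).1).smulC _).mono (by omega)
    have h2 : HH (MvPolynomial.X 0 : MvPolynomial (Fin 3) K) (MvPolynomial.X 2) ι₀ b i
        ((aeval (DD b A B) g) (cst b v)) = 0 :=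
      HH_Q hi e0 e2 hx (hQ (cst b v)) hdg
    rw [hsum, HH_sum] at h2
    have h3 := aeval_hom3 (K := K) (MvPolynomial.X 0 : MvPolynomial (Fin 3) K) (MvPolynomial.X 1)
      (MvPolynomial.X 2) i g
    have h4 : MvPolynomial.aeval ![(MvPolynomial.X 0 : MvPolynomial (Fin 3) K),
        MvPolynomial.X 1, MvPolynomial.X 2] (hom3 i g) = hom3 i g := by
      have h5 : ![(MvPolynomial.X 0 : MvPolynomial (Fin 3) K), MvPolynomial.X 1,
          MvPolynomial.X 2] = MvPolynomial.X := by
        funext a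
        fin_cases a <;> rfl
      rw [h5, MvPolynomial.aeval_X_left_apply]
    rw [h4] at h3
    rw [h3, Finset.sum_smul, ← h2]
    refine Finset.sum_congr rfl fun j hj => ?_
    rw [HH_sum, Finset.sum_smul]
    refine Finset.sum_congr rfl fun l hl => ?_
    have hj' := Finset.mem_range.1 hj
    have hl' := Finset.mem_range.1 hl
    rw [HH_smulC, mono_aux3 hAB' v j l i (by omega), smul_assoc]

end Pool.EG3.CHA
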