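import Mathlib
import Pool.Agent.H45.EG3.S2

/-!
Rows NUL, INJ, SUR of `eg3`.
-/

namespace Pool.EG3

open MvPolynomial Pool.EGH

theorem t_nul : NULStmt := by
  intro K _ _ I h
  have h1 : ∀ i : Fin 3, (X i : PR K 3) ∈ I.radical := by
    intro i
    rw [← MvPolynomial.vanishingIdeal_zeroLocus_eq_radical (K := K) I]
    intro q hq
    rw [aeval_X]
    by_contra hne
    have hq0 : q ≠ 0 := fun h0 => hne (by rw [h0]; rfl)
    obtain ⟨F, hF, hFq⟩ := h q hq0
    exact hFq (by simpa [MvPolynomial.aeval_eq_eval] using hq F hF)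
  choose N hN using fun i => Ideal.mem_radical_iff.1 (h1 i)
  refine ⟨∑ i, N i, fun i => ?_⟩
  have h2 : N i ≤ ∑ i, N i := Finset.single_le_sum (fun _ _ => Nat.zero_le _) (Finset.mem_univ i)
  exact I.pow_mem_of_pow_mem (hN i) h2

/-- An injective matrix over a field has an invertible square submatrix. -/
theorem exists_minor {K : Type} [Field K] {m n : ℕ} (A : Matrix (Fin m) (Fin n) K)
    (hA : ∀ v : Fin n → K, A.mulVec v = 0 → v = 0) :
    ∃ r : Fin n → Fin m, (A.submatrix r id).det ≠ 0 := by
  have h1 : Submodule.span K (Set.range A.row) = ⊤ := by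
    have h2 : Function.Injective A.mulVecLin := by
      rw [← LinearMap.ker_eq_bot, LinearMap.ker_eq_bot']
      exact hA
    have h3 : A.rank = n := by
      rw [Matrix.rank, LinearMap.finrank_range_of_inj h2]
      simp
    apply Submodule.eq_top_of_finrank_eq
    rw [← Matrix.rank_eq_finrank_span_row, h3]
    simp
  obtain ⟨f, hf, -, hli⟩ := Submodule.exists_fun_fin_finrank_span_eq K (Set.range A.row)
  have h4 : Module.finrank K (Submodule.span K (Set.range A.row)) = n := by
    rw [h1]
    simp
  choose r hr using hf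
  refine ⟨fun a => r (Fin.cast h4.symm a), ?_⟩
  have h5 : LinearIndependent K (A.submatrix (fun a => r (Fin.cast h4.symm a)) id).row := by
    have h6 : (A.submatrix (fun a => r (Fin.cast h4.symm a)) id).row =
        fun a => f (Fin.cast h4.symm a) := by
      funext a
      exact hr _
    rw [h6]
    exact hli.comp _ (Fin.cast_injective _)
  rw [Matrix.linearIndependent_rows_iff_isUnit, Matrix.isUnit_iff_isUnit_det] at h5
  exact h5.ne_zero

theorem t_inj : INJStmt := by
  intro K _ _ m n A hA
  let I0 : Ideal (PR K 3) := Ideal.span (Set.range fun r : Fin n → Fin m =>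
    (A.submatrix r id).det)
  obtain ⟨N, hN⟩ := t_nul K I0 (fun q hq => by
    obtain ⟨r, hr⟩ := exists_minor (A.map (eval q)) (hA q hq)
    refine ⟨(A.submatrix r id).det, Ideal.subset_span ⟨r, rfl⟩, ?_⟩
    rw [RingHom.map_det]
    exact hr)
  refine ⟨N, fun I v hv i j => ?_⟩
  let J : Ideal (PR K 3) :=
    { carrier := {p | p * v j ∈ I}
      add_mem' := by
        intro p p' hp hp'
        change (p + p') * v j ∈ I
        rw [add_mul]
        exact I.add_mem hp hp'
      zero_mem' := by
        change (0 : PR K 3) * v j ∈ I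
        rw [zero_mul]
        exact I.zero_mem
      smul_mem' := by
        intro c p hp
        change c * p * v j ∈ I
        rw [mul_assoc]
        exact I.mul_mem_left c hp }
  have h1 : I0 ≤ J := by
    rw [Ideal.span_le]
    rintro _ ⟨r, rfl⟩
    change (A.submatrix r id).det * v j ∈ I
    have h2 : (A.submatrix r id).adjugate.mulVec ((A.submatrix r id).mulVec v) =
        (A.submatrix r id).det • v := by
      rw [Matrix.mulVec_mulVec, Matrix.adjugate_mul, Matrix.smul_mulVec, Matrix.one_mulVec]
    have h3 := congrFun h2 j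
    rw [Pi.smul_apply, smul_eq_mul] at h3
    rw [← h3]
    have h4 : (A.submatrix r id).adjugate.mulVec ((A.submatrix r id).mulVec v) j =
        ∑ l, (A.submatrix r id).adjugate j l * (A.submatrix r id).mulVec v l := rfl
    rw [h4]
    refine Ideal.sum_mem I fun l _ => I.mul_mem_left _ ?_
    exact hv (r l)
  exact h1 (hN i)

theorem t_sur : SURStmt := by
  intro K _ _ m n A hA
  let I0 : Ideal (PR K 3) := Ideal.span (Set.range fun s : Fin m → Fin n =>
    (A.submatrix id s).det)
  obtain ⟨N, hN⟩ := t_nul K I0 (fun q hq => by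
    obtain ⟨s, hs⟩ := exists_minor (A.map (eval q)).transpose (by
      intro v hv
      by_contra hne
      obtain ⟨j, hj⟩ := Function.ne_iff.1 hne
      obtain ⟨w, hw⟩ := hA q hq (Pi.single j 1)
      have h1 : v ⬝ᵥ (A.map (eval q)).mulVec w = 0 := by
        rw [Matrix.dotProduct_mulVec, ← Matrix.mulVec_transpose, hv, zero_dotProduct]
      rw [hw, dotProduct_single_one] at h1
      exact hj h1)
    refine ⟨(A.submatrix id s).det, Ideal.subset_span ⟨s, rfl⟩, ?_⟩
    rw [RingHom.map_det, ← Matrix.det_transpose]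
    exact hs)
  let J : Ideal (PR K 3) :=
    { carrier := {p | ∀ e : Fin m → PR K 3, ∃ v, A.mulVec v = p • e}
      add_mem' := by
        intro p p' hp hp' e
        obtain ⟨v, hv⟩ := hp e
        obtain ⟨v', hv'⟩ := hp' e
        exact ⟨v + v', by rw [Matrix.mulVec_add, hv, hv', add_smul]⟩
      zero_mem' := fun e => ⟨0, by rw [Matrix.mulVec_zero, zero_smul]⟩
      smul_mem' := by
        intro c p hp e
        obtain ⟨v, hv⟩ := hp e
        exact ⟨c • v, by rw [Matrix.mulVec_smul, hv, smul_smul, smul_eq_mul]⟩ }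
  have h1 : I0 ≤ J := by
    rw [Ideal.span_le]
    rintro _ ⟨s, rfl⟩
    intro e
    refine ⟨fun b => ∑ a, if s a = b then (A.submatrix id s).adjugate.mulVec e a else 0, ?_⟩
    have h2 : (A.submatrix id s).mulVec ((A.submatrix id s).adjugate.mulVec e) =
        (A.submatrix id s).det • e := by
      rw [Matrix.mulVec_mulVec, Matrix.mul_adjugate, Matrix.smul_mulVec, Matrix.one_mulVec]
    change _ = (A.submatrix id s).det • e
    rw [← h2]
    funext j
    simp only [Matrix.mulVec, dotProduct, Finset.mul_sum]
    rw [Finset.sum_comm]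
    refine Finset.sum_congr rfl fun a _ => ?_
    simp [Finset.mul_sum]
  refine ⟨N, fun i e => ?_⟩
  obtain ⟨v, hv⟩ := h1 (hN i) e
  exact ⟨v, hv⟩

end Pool.EG3
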