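import Mathlib
import Pool.Agent.H45.EG3.S2
import Pool.Agent.H85.EG3.InjSur

/-!
Rows SAT, FRE, RES of `eg3`.
-/

namespace Pool.EG3

open MvPolynomial Pool.EGH

/-- A prime which divides `X i ^ N * v` for all i divides v. -/
theorem dvd_of_all {K : Type} [Field K] {θ v : PR K 3} (hθ : Prime θ) {N : ℕ}
    (h : ∀ i : Fin 3, θ ∣ X i ^ N * v) : θ ∣ v := by
  by_contra hv
  have h1 : ∀ i : Fin 3, θ ∣ X i := fun i =>
    hθ.dvd_of_dvd_pow ((hθ.dvd_or_dvd (h i)).resolve_right hv)
  have h2 : Irreducible (X 0 : PR K 3) := by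
    refine MvPolynomial.irreducible_of_totalDegree_eq_one (by simp) fun r hr => ?_
    have h3 := hr (Finsupp.single 0 1)
    rw [MvPolynomial.coeff_X, if_pos rfl] at h3
    exact isUnit_of_dvd_one h3
  obtain ⟨c, hc⟩ := h1 0
  have h3 : IsUnit c := (h2.isUnit_or_isUnit hc).resolve_left hθ.not_isUnit
  have h4 : (X 0 : PR K 3) ∣ X 1 := by
    rw [hc]
    exact (h3.mul_right_dvd).2 (h1 1)
  rw [MvPolynomial.X_dvd_X] at h4
  exact absurd h4 (by decide)

theorem t_sat (hKOS : KOSStmt) (hKO1 : KO1Stmt) : SATStmt := by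
  intro K _ N θ a v hirr hna hv
  have hθ : Prime θ := hirr.prime
  have hv' : ∀ i : Fin 3, ∃ u w, u * θ + w * a = X i ^ N * v := fun i =>
    Ideal.mem_span_pair.1 (hv i)
  choose u w huw using hv'
  have h1 : ∀ i j, θ ∣ X j ^ N * w i - X i ^ N * w j := by
    intro i j
    have h2 : θ ∣ a * (X j ^ N * w i - X i ^ N * w j) := by
      refine ⟨X i ^ N * u j - X j ^ N * u i, ?_⟩
      have e1 := huw i
      have e2 := huw j
      linear_combination X j ^ N * e1 - X i ^ N * e2
    exact (hθ.dvd_or_dvd h2).resolve_left hna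
  choose c hc using h1
  obtain ⟨y, hy⟩ := hKOS K N c (by
    intro i j k
    apply mul_left_cancel₀ hθ.ne_zero
    rw [mul_zero]
    linear_combination (-X k ^ N) * hc i j + X j ^ N * hc i k - X i ^ N * hc j k)
  obtain ⟨v', hv'⟩ := hKO1 K N (fun i => w i - θ * y i) (by
    intro i j
    have e1 := hc i j
    rw [hy i j] at e1
    linear_combination e1)
  have h3 : θ ∣ v - a * v' := by
    refine dvd_of_all hθ (N := N) fun i => ⟨u i + a * y i, ?_⟩
    have e1 := huw i
    have e2 := hv' i
    linear_combination (-1 : PR K 3) * e1 + a * e2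
  obtain ⟨p, hp⟩ := h3
  exact Ideal.mem_span_pair.2 ⟨p, v', by linear_combination (-1 : PR K 3) * hp⟩

theorem t_fre (hSAT : SATStmt) (hRKF : RKFStmt) : FREStmt := by
  intro K _ _ n₀ n₂ A B hBA hAq hBq
  obtain ⟨N, hN⟩ := t_inj K _ _ A hAq
  obtain ⟨N', hN'⟩ := t_sur K _ _ B hBq
  have hA0 : ∀ v, A.mulVec v = 0 → v = 0 := by
    intro v hv
    funext j
    have h1 := hN ⊥ v (fun l => by rw [hv]; exact Ideal.zero_mem _) 0 j
    rw [Ideal.mem_bot] at h1
    exact (mul_eq_zero.1 h1).resolve_left (pow_ne_zero _ (MvPolynomial.X_ne_zero 0))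
  obtain ⟨⟨ω0, hω0, hω0'⟩, hR⟩ := hRKF K n₀ n₂ A B hBA hA0
    ⟨X 0 ^ N', pow_ne_zero _ (MvPolynomial.X_ne_zero 0), fun e => hN' 0 e⟩
  have hBA' : ∀ v, B.mulVec (A.mulVec v) = 0 := by
    intro v
    rw [Matrix.mulVec_mulVec, hBA, Matrix.zero_mulVec]
  -- the maximal choice
  let S : Set (Submodule (PR K 3) (Fin (n₀ + n₂ + 1) → PR K 3)) :=
    {P | ∃ ω, B.mulVec ω = 0 ∧ (∀ (c : PR K 3) (v : Fin n₀ → PR K 3), c • ω = A.mulVec v → c = 0) ∧
      P = LinearMap.range A.mulVecLin ⊔ Submodule.span (PR K 3) {ω}}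
  obtain ⟨P, ⟨ω, hω, hω', rfl⟩, hmax⟩ := WellFounded.has_min
    (wellFounded_gt (α := Submodule (PR K 3) (Fin (n₀ + n₂ + 1) → PR K 3))) S
    ⟨_, ω0, hω0, hω0', rfl⟩
  have key : ∀ b : PR K 3, b ≠ 0 → ∀ κ, B.mulVec κ = 0 → ∀ (a : PR K 3) (v : Fin n₀ → PR K 3),
      b • κ = a • ω + A.mulVec v → ∃ (a : PR K 3) (v : Fin n₀ → PR K 3),
        κ = a • ω + A.mulVec v := by
    intro b
    induction b using UniqueFactorizationMonoid.induction_on_prime with
    | h₁ => exact fun h => absurd rfl h
    | h₂ b hb =>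
      intro _ κ _ a v hab
      obtain ⟨b', hb'⟩ := hb.exists_left_inv
      refine ⟨b' * a, b' • v, ?_⟩
      have h1 : κ = b' • (b • κ) := by rw [smul_smul, hb', one_smul]
      rw [h1, hab, smul_add, smul_smul, Matrix.mulVec_smul]
    | h₃ b θ hb0 hθ ih =>
      intro hne κ hκ a v hab
      by_cases hda : θ ∣ a
      · obtain ⟨a', rfl⟩ := hda
        have h1 : ∀ j, θ ∣ v j := by
          intro j
          refine dvd_of_all hθ (N := N) fun i => ?_
          rw [← Ideal.mem_span_singleton]
          refine hN (Ideal.span {θ}) v (fun l => ?_) i j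
          rw [Ideal.mem_span_singleton]
          refine ⟨b * κ l - a' * ω l, ?_⟩
          have h2 := congrFun hab l
          simp only [Pi.smul_apply, Pi.add_apply, smul_eq_mul] at h2
          linear_combination (-1 : PR K 3) * h2
        choose v' hv' using h1
        have hv'' : v = θ • v' := funext hv'
        refine ih hb0 κ hκ a' v' ?_
        refine smul_right_injective _ hθ.ne_zero ?_
        change θ • (b • κ) = θ • (a' • ω + A.mulVec v')
        rw [smul_smul, hab, hv'', Matrix.mulVec_smul, smul_add, smul_smul]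
      · exfalso
        have h1 : ∀ j, ∃ p q, p * θ + q * a = v j := by
          intro j
          refine Ideal.mem_span_pair.1 (hSAT K N θ a (v j) hθ.irreducible hda fun i => ?_)
          refine hN (Ideal.span {θ, a}) v (fun l => ?_) i j
          refine Ideal.mem_span_pair.2 ⟨b * κ l, - ω l, ?_⟩
          have h2 := congrFun hab l
          simp only [Pi.smul_apply, Pi.add_apply, smul_eq_mul] at h2
          linear_combination h2
        choose v1 v2 hv12 using h1
        have hv : v = θ • v1 + a • v2 := by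
          funext j
          simp only [Pi.smul_apply, Pi.add_apply, smul_eq_mul]
          linear_combination (-1 : PR K 3) * hv12 j
        have h2 : ∀ l, θ ∣ ω l + A.mulVec v2 l := by
          intro l
          have h3 : θ ∣ a * (ω l + A.mulVec v2 l) := by
            refine ⟨b * κ l - A.mulVec v1 l, ?_⟩
            have h4 := congrFun hab l
            rw [hv, Matrix.mulVec_add, Matrix.mulVec_smul, Matrix.mulVec_smul] at h4
            simp only [Pi.smul_apply, Pi.add_apply, smul_eq_mul] at h4
            linear_combination (-1 : PR K 3) * h4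
          exact (hθ.dvd_or_dvd h3).resolve_left hda
        choose ω' hω'' using h2
        have hω3 : ω + A.mulVec v2 = θ • ω' := funext hω''
        have hB' : B.mulVec ω' = 0 := by
          refine smul_right_injective _ hθ.ne_zero ?_
          change θ • B.mulVec ω' = θ • (0 : Fin n₂ → PR K 3)
          rw [← Matrix.mulVec_smul, ← hω3, Matrix.mulVec_add, hω, hBA', add_zero, smul_zero]
        have hI' : ∀ (c : PR K 3) (v : Fin n₀ → PR K 3), c • ω' = A.mulVec v → c = 0 := by
          intro c u hcu
          refine hω' c (θ • u - c • v2) ?_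
          rw [Matrix.mulVec_sub, Matrix.mulVec_smul, Matrix.mulVec_smul, ← hcu, smul_comm θ c,
            ← hω3, smul_add]
          abel
        have hle : ω' ∈ LinearMap.range A.mulVecLin ⊔ Submodule.span (PR K 3) {ω} := by
          have h5 := hmax (LinearMap.range A.mulVecLin ⊔ Submodule.span (PR K 3) {ω'})
            ⟨ω', hB', hI', rfl⟩
          have h6 : LinearMap.range A.mulVecLin ⊔ Submodule.span (PR K 3) {ω} ≤
              LinearMap.range A.mulVecLin ⊔ Submodule.span (PR K 3) {ω'} := by
            refine sup_le le_sup_left ?_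
            rw [Submodule.span_singleton_le_iff_mem]
            have h7 : ω = θ • ω' - A.mulVec v2 := by
              rw [← hω3]
              abel
            rw [h7]
            refine Submodule.sub_mem _ ?_ ?_
            · exact Submodule.smul_mem _ _ ((le_sup_right : _ ≤
                LinearMap.range A.mulVecLin ⊔ Submodule.span (PR K 3) {ω'})
                (Submodule.mem_span_singleton_self ω'))
            · exact (le_sup_left : _ ≤
                LinearMap.range A.mulVecLin ⊔ Submodule.span (PR K 3) {ω'}) ⟨v2, rfl⟩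
          have h8 : LinearMap.range A.mulVecLin ⊔ Submodule.span (PR K 3) {ω'} ≤
              LinearMap.range A.mulVecLin ⊔ Submodule.span (PR K 3) {ω} := by
            by_contra hnle
            exact h5 (lt_of_le_not_ge h6 hnle)
          exact h8 ((le_sup_right : _ ≤
                LinearMap.range A.mulVecLin ⊔ Submodule.span (PR K 3) {ω'})
                (Submodule.mem_span_singleton_self ω'))
        obtain ⟨_, ⟨u, rfl⟩, _, hs, hsum⟩ := Submodule.mem_sup.1 hle
        obtain ⟨p, rfl⟩ := Submodule.mem_span_singleton.1 hs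
        have h9 : (1 - θ * p) • ω = A.mulVec (θ • u - v2) := by
          have h10 : θ • ω' = θ • (A.mulVec u + p • ω) := by
            rw [← hsum]
            rfl
          rw [← hω3, smul_add] at h10
          rw [Matrix.mulVec_sub, Matrix.mulVec_smul, sub_smul, one_smul, mul_smul,
            sub_eq_iff_eq_add]
          exact (eq_sub_of_add_eq h10).trans (by abel)
        have h12 := hω' _ _ h9
        have h13 : θ * p = 1 := by linear_combination (-1 : PR K 3) * h12
        exact hθ.not_isUnit (IsUnit.of_mul_eq_one _ h13)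
  refine ⟨ω, hω, fun κ hκ => ?_, fun a v hav => ?_⟩
  · obtain ⟨b, a, v, hb, hbk⟩ := hR ω κ hω hκ hω'
    exact key b hb κ hκ a v hbk
  · have h1 : a = 0 := hω' a (-v) (by
      rw [Matrix.mulVec_neg]
      exact eq_neg_of_add_eq_zero_left hav)
    refine ⟨h1, hA0 v ?_⟩
    rwa [h1, zero_smul, zero_add] at hav

theorem t_res (hKOS : KOSStmt) (hKO1 : KO1Stmt) (hFRE : FREStmt) : RESStmt := by
  intro K _ _ n₀ n₂ A B hBA hAq hBq e
  obtain ⟨N, hN⟩ := t_sur K _ _ B hBq
  obtain ⟨ω, hω, hker, huniq⟩ := hFRE K n₀ n₂ A B hBA hAq hBq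
  have hBA' : ∀ v, B.mulVec (A.mulVec v) = 0 := by
    intro v
    rw [Matrix.mulVec_mulVec, hBA, Matrix.zero_mulVec]
  choose w hw using fun i => hN i e
  have hw' : ∀ i, B.mulVec (w i) = (X i : PR K 3) ^ N • e := fun i => hw i
  have h1 : ∀ i j, ∃ (a : PR K 3) (v : Fin n₀ → PR K 3),
      (X j : PR K 3) ^ N • w i - (X i : PR K 3) ^ N • w j = a • ω + A.mulVec v := by
    intro i j
    refine hker _ ?_
    rw [Matrix.mulVec_sub, Matrix.mulVec_smul, Matrix.mulVec_smul, hw', hw', smul_smul, smul_smul,
      mul_comm, sub_self]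
  choose a v hav using h1
  have h2 : ∀ i j k, (X k : PR K 3) ^ N * a i j - X j ^ N * a i k + X i ^ N * a j k = 0 ∧
      (X k : PR K 3) ^ N • v i j - (X j : PR K 3) ^ N • v i k + (X i : PR K 3) ^ N • v j k = 0 := by
    intro i j k
    refine huniq _ _ ?_
    rw [Matrix.mulVec_add, Matrix.mulVec_sub, Matrix.mulVec_smul, Matrix.mulVec_smul,
      Matrix.mulVec_smul]
    have e1 : (X k : PR K 3) ^ N • (a i j • ω + A.mulVec (v i j)) -
        (X j : PR K 3) ^ N • (a i k • ω + A.mulVec (v i k)) +
        (X i : PR K 3) ^ N • (a j k • ω + A.mulVec (v j k)) = 0 := by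
      rw [← hav, ← hav, ← hav]
      module
    rw [← e1]
    module
  obtain ⟨y, hy⟩ := hKOS K N a (fun i j k => (h2 i j k).1)
  have h3 : ∀ l, ∃ u : Fin 3 → PR K 3, ∀ i j, v i j l = X j ^ N * u i - X i ^ N * u j := by
    intro l
    refine hKOS K N (fun i j => v i j l) (fun i j k => ?_)
    have e2 := congrFun (h2 i j k).2 l
    simpa using e2
  choose u hu using h3
  -- the corrected lifts
  have h4 : ∀ l, ∃ g : PR K 3, ∀ i,
      (w i - y i • ω - A.mulVec (fun l => u l i)) l = X i ^ N * g := by
    intro l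
    refine hKO1 K N (fun i => (w i - y i • ω - A.mulVec (fun l => u l i)) l) (fun i j => ?_)
    have e3 : (X j : PR K 3) ^ N • (w i - y i • ω - A.mulVec (fun l => u l i)) =
        (X i : PR K 3) ^ N • (w j - y j • ω - A.mulVec (fun l => u l j)) := by
      have e4 := hav i j
      have e5 : v i j = (X j : PR K 3) ^ N • (fun l => u l i) -
          (X i : PR K 3) ^ N • (fun l => u l j) := by
        funext l
        exact hu l i j
      rw [hy i j, e5, Matrix.mulVec_sub, Matrix.mulVec_smul, Matrix.mulVec_smul, sub_smul,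
        mul_smul, mul_smul] at e4
      rw [smul_sub, smul_sub, smul_sub, smul_sub]
      rw [sub_eq_iff_eq_add] at e4
      rw [e4]
      abel
    exact congrFun e3 l
  choose g hg using h4
  refine ⟨g, ?_⟩
  have h5 : w 0 - y 0 • ω - A.mulVec (fun l => u l 0) = (X 0 : PR K 3) ^ N • g := by
    funext l
    exact hg l 0
  have h6 := congrArg B.mulVec h5
  rw [Matrix.mulVec_sub, Matrix.mulVec_sub, Matrix.mulVec_smul, Matrix.mulVec_smul, hω, hBA', hw',
    smul_zero, sub_zero, sub_zero] at h6
  exact (smul_right_injective _ (pow_ne_zero N (MvPolynomial.X_ne_zero (R := K) 0)) h6).symm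

end Pool.EG3
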